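import Mathlib

/-!
# A polynomial vanishing at all primitive powers
-/

set_option autoImplicit false

namespace Pool.Agent.Helper44.CR

/-- For `j` prime to `d` there is a positive `k ≡ j (mod d)` prime to `M * d`. -/
theorem exists_coprime_modEq (M d j : ℕ) (hM : 0 < M) (hd : 0 < d) (hj : j.Coprime d) :
    ∃ k : ℕ, 0 < k ∧ k.Coprime M ∧ k.Coprime d ∧ k ≡ j [MOD d] := by
  have : NeZero (M * d) := ⟨(Nat.mul_pos hM hd).ne'⟩
  obtain ⟨v, hv⟩ := ZMod.unitsMap_surjective (n := d) (m := M * d) (Dvd.intro_left M rfl)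
    (ZMod.unitOfCoprime j hj)
  have hcop : (v : ZMod (M * d)).val.Coprime (M * d) := ZMod.val_coe_unit_coprime v
  have hmod : ((v : ZMod (M * d)).val : ZMod d) = (j : ZMod d) := by
    have h1 := congrArg (fun w : (ZMod d)ˣ => (w : ZMod d)) hv
    simp only [ZMod.coe_unitOfCoprime] at h1
    rw [← h1, ZMod.unitsMap_val]
    exact ZMod.natCast_val _
  have hcop2 : ((v : ZMod (M * d)).val + M * d).Coprime (M * d) := by
    rw [Nat.coprime_add_self_left]
    exact hcop
  refine ⟨(v : ZMod (M * d)).val + M * d, by positivity, ?_, ?_, ?_⟩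
  · exact Nat.Coprime.coprime_dvd_right (Dvd.intro _ rfl) hcop2
  · exact Nat.Coprime.coprime_dvd_right (Dvd.intro_left M rfl) hcop2
  · rw [← ZMod.natCast_eq_natCast_iff]
    push_cast
    rw [ZMod.natCast_self, mul_zero, add_zero]
    exact hmod

/-- A nonzero polynomial over `F_ℓ` which vanishes at `a ^ k` for all `k` prime to `M` and to
the order `d` of `a` has degree at least `φ(d)`. -/
theorem totient_le_natDegree (ℓ : ℕ) [Fact ℓ.Prime] (a : ZMod ℓ) (ha : a ≠ 0) (M : ℕ)
    (hM : 0 < M) (P : Polynomial (ZMod ℓ)) (hP : P ≠ 0)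
    (h : ∀ k, 0 < k → k.Coprime M → k.Coprime (orderOf a) → P.eval (a ^ k) = 0) :
    Nat.totient (orderOf a) ≤ P.natDegree := by
  classical
  have hd : 0 < orderOf a := by
    rw [orderOf_pos_iff, isOfFinOrder_iff_pow_eq_one]
    exact ⟨ℓ - 1, Nat.sub_pos_of_lt (Fact.out : ℓ.Prime).one_lt, ZMod.pow_card_sub_one_eq_one ha⟩
  set d := orderOf a with hddef
  have hinj : Set.InjOn (fun j => a ^ j) ({j ∈ Finset.range d | d.Coprime j} : Finset ℕ) := by
    intro i hi j hj hij
    simp only [Finset.coe_filter, Finset.mem_range, Set.mem_ofPred_eq] at hi hj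
    exact pow_injOn_Iio_orderOf hi.1 hj.1 hij
  have hcard : (({j ∈ Finset.range d | d.Coprime j} : Finset ℕ).image (fun j => a ^ j)).card
      = Nat.totient d := by
    rw [Finset.card_image_of_injOn hinj]
    rfl
  rw [← hcard]
  refine Polynomial.card_le_degree_of_subset_roots ?_
  intro b hb
  rw [Finset.mem_val, Finset.mem_image] at hb
  obtain ⟨j, hj, rfl⟩ := hb
  rw [Finset.mem_filter, Finset.mem_range] at hj
  obtain ⟨k, hk0, hkM, hkd, hkj⟩ := exists_coprime_modEq M d j hM hd hj.2.symm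
  rw [Polynomial.mem_roots hP, Polynomial.IsRoot.def]
  have e : a ^ j = a ^ k := by
    rw [← pow_mod_orderOf a j, ← pow_mod_orderOf a k]
    exact congrArg (fun i => a ^ i) hkj.symm
  rw [e]
  exact h k hk0 hkM hkd

end Pool.Agent.Helper44.CR
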