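import Mathlib

/-!
# Automorphisms of prime order of a local ring with small embedding dimension are trivial
-/

set_option autoImplicit false

open IsLocalRing

namespace Pool.Agent.Helper44.CR

/-- A linear map `T` with `T ^ ℓ = 1` on a vector space of dimension `< ord_ℓ |κ|` is trivial;
if `T` has a nonzero fixed vector, dimension `≤ ord_ℓ |κ|` suffices. -/
theorem linear_trivial {κ V : Type*} [Field κ] [Finite κ] [AddCommGroup V] [Module κ V]
    [Module.Finite κ V] (ℓ : ℕ) [Fact ℓ.Prime] (T : V →ₗ[κ] V) (hT : T ^ ℓ = 1)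
    (hord : 0 < orderOf ((Nat.card κ : ℕ) : ZMod ℓ))
    (hd : Module.finrank κ V < orderOf ((Nat.card κ : ℕ) : ZMod ℓ) ∨
      (Module.finrank κ V ≤ orderOf ((Nat.card κ : ℕ) : ZMod ℓ) ∧ ∃ v, v ≠ 0 ∧ T v = v)) :
    T = 1 := by
  classical
  have : Finite V := Module.finite_of_finite κ
  have : Fintype V := Fintype.ofFinite V
  let f : Function.End V := fun v => T v
  have hf : f ^ ℓ ^ 1 = 1 := by
    have h1 : ∀ (n : ℕ) (v : V), (f ^ n) v = (T ^ n) v := by
      intro n
      induction n with
      | zero => intro v; rfl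
      | succ n ih =>
        intro v
        rw [pow_succ, pow_succ]
        change (f ^ n) (f v) = (T ^ n) (T v)
        rw [ih]
    funext v
    rw [pow_one, h1, hT]
    rfl
  have hmod := Equiv.Perm.card_fixedPoints_modEq (α := V) (f := f) (p := ℓ) (n := 1) hf
  set W : Submodule κ V := LinearMap.ker (T - 1) with hW
  have hcardW : Fintype.card f.fixedPoints = Nat.card W := by
    rw [← Nat.card_eq_fintype_card]
    apply Nat.card_congr
    refine Equiv.subtypeEquivRight ?_
    intro v
    rw [hW, LinearMap.mem_ker, LinearMap.sub_apply, sub_eq_zero]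
    rfl
  have hV : Fintype.card V = Nat.card κ ^ Module.finrank κ V := by
    rw [← Nat.card_eq_fintype_card, Module.natCard_eq_pow_finrank (K := κ)]
  have hW' : Nat.card W = Nat.card κ ^ Module.finrank κ W := by
    rw [Module.natCard_eq_pow_finrank (K := κ)]
  rw [hcardW, hV, hW'] at hmod
  have hle : Module.finrank κ W ≤ Module.finrank κ V := Submodule.finrank_le W
  set q : ZMod ℓ := ((Nat.card κ : ℕ) : ZMod ℓ) with hq
  have hq0 : q ≠ 0 := by
    intro h0
    rw [h0, orderOf_eq_zero_iff'.2] at hord
    · omega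
    · intro n hn h
      rw [zero_pow hn.ne'] at h
      exact zero_ne_one h
  have hdW : Module.finrank κ V - Module.finrank κ W < orderOf q := by
    rcases hd with hd | ⟨hd, v, hv0, hv⟩
    · omega
    · have hW1 : 0 < Module.finrank κ W := by
        rw [Module.finrank_pos_iff, Submodule.nontrivial_iff_ne_bot]
        intro hbot
        apply hv0
        have : v ∈ W := by
          rw [hW, LinearMap.mem_ker, LinearMap.sub_apply, hv]
          exact sub_self v
        rw [hbot, Submodule.mem_bot] at this
        exact this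
      omega
  have heq : q ^ Module.finrank κ V = q ^ Module.finrank κ W := by
    have := (ZMod.natCast_eq_natCast_iff _ _ _).2 hmod
    simpa [hq] using this
  have h1 : q ^ (Module.finrank κ V - Module.finrank κ W) = 1 := by
    have h2 : q ^ (Module.finrank κ V - Module.finrank κ W) * q ^ Module.finrank κ W
        = 1 * q ^ Module.finrank κ W := by
      rw [← pow_add, Nat.sub_add_cancel hle, one_mul, heq]
    exact mul_right_cancel₀ (pow_ne_zero _ hq0) h2
  have h2 : Module.finrank κ V - Module.finrank κ W = 0 := by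
    by_contra hne
    have := Nat.le_of_dvd (Nat.pos_of_ne_zero hne) (orderOf_dvd_of_pow_eq_one h1)
    omega
  have h3 : W = ⊤ := by
    apply Submodule.eq_top_of_finrank_eq
    omega
  ext v
  have : v ∈ W := by rw [h3]; trivial
  rw [hW, LinearMap.mem_ker, LinearMap.sub_apply, sub_eq_zero] at this
  simpa using this

section Ring

variable {R : Type*} [CommRing R] [IsLocalRing R]

/-- If `s` is trivial modulo `m` and on `m / m ^ 2`, it is trivial on `m ^ j / m ^ (j + 1)`. -/
theorem sub_mem_pow_succ (s : R →+* R) (h0 : ∀ a, s a - a ∈ maximalIdeal R)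
    (h1 : ∀ a ∈ maximalIdeal R, s a - a ∈ maximalIdeal R ^ 2) (j : ℕ) :
    ∀ a ∈ maximalIdeal R ^ j, s a - a ∈ maximalIdeal R ^ (j + 1) := by
  induction j with
  | zero => intro a _; simpa using h0 a
  | succ j ih =>
    intro a ha
    rw [pow_succ'] at ha
    refine Submodule.mul_induction_on ha ?_ ?_
    · intro x hx y hy
      have hsx : s x ∈ maximalIdeal R := by
        have := Ideal.pow_le_self (two_ne_zero) (h1 x hx)
        simpa using Ideal.add_mem _ this hx
      have e : s (x * y) - x * y = s x * (s y - y) + (s x - x) * y := by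
        rw [map_mul]; ring
      rw [e]
      refine Ideal.add_mem _ ?_ ?_
      · rw [pow_succ']
        exact Ideal.mul_mem_mul hsx (ih y hy)
      · have : maximalIdeal R ^ (j + 1 + 1) = maximalIdeal R ^ 2 * maximalIdeal R ^ j := by
          rw [← pow_add]; congr 1; omega
        rw [this]
        exact Ideal.mul_mem_mul (h1 x hx) hy
    · intro x y hx hy
      have e : s (x + y) - (x + y) = (s x - x) + (s y - y) := by rw [map_add]; ring
      rw [e]
      exact Ideal.add_mem _ hx hy

/-- The key induction: an endomorphism of order dividing `ℓ`, `ℓ` a unit, which is trivial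
modulo `m` and on `m / m ^ 2`, is trivial modulo every power of `m`. -/
theorem sub_mem_pow (s : R →+* R) (h0 : ∀ a, s a - a ∈ maximalIdeal R)
    (h1 : ∀ a ∈ maximalIdeal R, s a - a ∈ maximalIdeal R ^ 2) (ℓ : ℕ)
    (hs : ∀ a, s^[ℓ] a = a) (hℓ : IsUnit (ℓ : R)) (j : ℕ) :
    ∀ a, s a - a ∈ maximalIdeal R ^ (j + 1) := by
  induction j with
  | zero => intro a; simpa using h0 a
  | succ j ih =>
    have hstep : ∀ (a : R) (i : ℕ), s^[i] a - (a + i * (s a - a)) ∈ maximalIdeal R ^ (j + 2) := by
      intro a i
      induction i with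
      | zero => simp
      | succ i ihi =>
        rw [Function.iterate_succ_apply']
        set c := s^[i] a with hc
        set d := s a - a with hd
        have hdm : d ∈ maximalIdeal R ^ (j + 1) := ih a
        have hsd : s d - d ∈ maximalIdeal R ^ (j + 2) := sub_mem_pow_succ s h0 h1 (j + 1) d hdm
        set r := c - (a + i * d) with hr
        have hsr : s r - r ∈ maximalIdeal R ^ (j + 2) :=
          Ideal.pow_le_pow_right (by omega) (sub_mem_pow_succ s h0 h1 (j + 2) r ihi)
        have e : s c - (a + ((i + 1 : ℕ) : R) * d) = (s r - r) + r + (i : R) * (s d - d) := by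
          have e1 : c = r + (a + i * d) := by rw [hr]; ring
          have e2 : s a = a + d := by rw [hd]; ring
          rw [e1, map_add, map_add, map_mul, map_natCast, e2]
          push_cast
          ring
        rw [e]
        exact Ideal.add_mem _ (Ideal.add_mem _ hsr ihi) (Ideal.mul_mem_left _ _ hsd)
    intro a
    have h := hstep a ℓ
    rw [hs] at h
    have e : a - (a + ℓ * (s a - a)) = (-(ℓ : R)) * (s a - a) := by ring
    rw [e] at h
    exact (Ideal.unit_mul_mem_iff_mem _ hℓ.neg).1 h

/-- **Local rigidity.** -/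
theorem local_trivial [IsNoetherianRing R] (s : R →+* R) (ℓ : ℕ) [Fact ℓ.Prime]
    (hs : ∀ a, s^[ℓ] a = a) (h0 : ∀ a, s a - a ∈ maximalIdeal R)
    [Finite (ResidueField R)]
    (hord : 0 < orderOf ((Nat.card (ResidueField R) : ℕ) : ZMod ℓ))
    (hd : Module.finrank (ResidueField R) (CotangentSpace R) <
      orderOf ((Nat.card (ResidueField R) : ℕ) : ZMod ℓ) ∨
      (Module.finrank (ResidueField R) (CotangentSpace R) ≤
      orderOf ((Nat.card (ResidueField R) : ℕ) : ZMod ℓ) ∧
      ∃ z ∈ maximalIdeal R, z ∉ maximalIdeal R ^ 2 ∧ s z = z)) (a : R) : s a = a := by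
  -- the action on the cotangent space
  have hm : ∀ x ∈ maximalIdeal R, s x ∈ maximalIdeal R := by
    intro x hx
    simpa using Ideal.add_mem _ (h0 x) hx
  have hm2 : ∀ x ∈ maximalIdeal R ^ 2, s x ∈ maximalIdeal R ^ 2 := by
    intro x hx
    rw [pow_two] at hx ⊢
    refine Submodule.mul_induction_on hx ?_ ?_
    · intro a ha b hb
      rw [map_mul]
      exact Ideal.mul_mem_mul (hm a ha) (hm b hb)
    · intro a b ha hb
      rw [map_add]
      exact Ideal.add_mem _ ha hb
  -- additive map on the maximal ideal
  let g : maximalIdeal R →+ CotangentSpace R :=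
    { toFun := fun x => (maximalIdeal R).toCotangent ⟨s x, hm x x.2⟩
      map_zero' := by
        have : (⟨s ((0 : maximalIdeal R) : R), hm _ (0 : maximalIdeal R).2⟩ : maximalIdeal R) = 0 := by
          apply Subtype.ext; simp
        rw [this, map_zero]
      map_add' := by
        intro x y
        rw [← map_add]
        congr 1
        apply Subtype.ext
        simp }
  have hgR : ∀ (r : R) (x : maximalIdeal R), g (r • x) = r • g x := by
    intro r x
    change (maximalIdeal R).toCotangent _ = r • (maximalIdeal R).toCotangent _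
    rw [← map_smul, Ideal.toCotangent_eq]
    change s (r • (x : R)) - r • s x ∈ _
    have e : s (r • (x : R)) - r • s x = (s r - r) * s x := by
      rw [smul_eq_mul, smul_eq_mul, map_mul]; ring
    rw [e, pow_two]
    exact Ideal.mul_mem_mul (h0 r) (hm x x.2)
  let gl : maximalIdeal R →ₗ[R] CotangentSpace R :=
    { toFun := g, map_add' := g.map_add, map_smul' := hgR }
  have hker : (maximalIdeal R • ⊤ : Submodule R (maximalIdeal R)) ≤ LinearMap.ker gl := by
    rw [Submodule.smul_le]
    intro r hr x _
    rw [LinearMap.mem_ker, map_smul]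
    change r • g x = 0
    have : r • g x = (algebraMap R (ResidueField R) r) • g x := by
      rw [algebraMap_smul]
    rw [this, ResidueField.algebraMap_eq, (residue_eq_zero_iff r).2 hr, zero_smul]
  let T0 : CotangentSpace R →ₗ[R] CotangentSpace R := Submodule.liftQ _ gl hker
  have hT0 : ∀ x : maximalIdeal R, T0 ((maximalIdeal R).toCotangent x) =
      (maximalIdeal R).toCotangent ⟨s x, hm x x.2⟩ := by
    intro x
    rfl
  let T : CotangentSpace R →ₗ[ResidueField R] CotangentSpace R :=
    T0.extendScalarsOfSurjective residue_surjective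
  have hTa : ∀ x : maximalIdeal R, T ((maximalIdeal R).toCotangent x) =
      (maximalIdeal R).toCotangent ⟨s x, hm x x.2⟩ := hT0
  have hiter : ∀ (n : ℕ) (x : maximalIdeal R), ∃ h : s^[n] (x : R) ∈ maximalIdeal R,
      (T ^ n) ((maximalIdeal R).toCotangent x) = (maximalIdeal R).toCotangent ⟨s^[n] x, h⟩ := by
    intro n
    induction n with
    | zero => intro x; exact ⟨x.2, rfl⟩
    | succ n ih =>
      intro x
      obtain ⟨h, e⟩ := ih ⟨s x, hm x x.2⟩
      refine ⟨?_, ?_⟩
      · rw [Function.iterate_succ_apply]; exact h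
      · rw [pow_succ, Module.End.mul_apply, hTa, e]
        rfl
  have hTl : T ^ ℓ = 1 := by
    apply LinearMap.ext
    intro v
    obtain ⟨x, rfl⟩ := Ideal.toCotangent_surjective _ v
    obtain ⟨h, e⟩ := hiter ℓ x
    rw [e]
    change _ = (maximalIdeal R).toCotangent x
    congr 1
    apply Subtype.ext
    exact hs x
  have hT1 : T = 1 := by
    refine linear_trivial ℓ T hTl hord (hd.imp id ?_)
    rintro ⟨hd, z, hz, hz2, hsz⟩
    refine ⟨hd, (maximalIdeal R).toCotangent ⟨z, hz⟩, ?_, ?_⟩
    · rw [Ne, Ideal.toCotangent_eq_zero]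
      exact hz2
    · rw [hTa]
      congr 1
      apply Subtype.ext
      exact hsz
  have h1 : ∀ a ∈ maximalIdeal R, s a - a ∈ maximalIdeal R ^ 2 := by
    intro a ha
    have e : T ((maximalIdeal R).toCotangent ⟨a, ha⟩) = (maximalIdeal R).toCotangent ⟨a, ha⟩ := by
      rw [hT1]; rfl
    rw [hTa, Ideal.toCotangent_eq] at e
    exact e
  -- `ℓ` is a unit
  have hℓu : IsUnit (ℓ : R) := by
    by_contra hnu
    have hmem : (ℓ : R) ∈ maximalIdeal R := (mem_maximalIdeal _).2 hnu
    have h2 : ((ℓ : ℕ) : ResidueField R) = 0 := by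
      rw [← map_natCast (residue R), residue_eq_zero_iff]; exact hmem
    have : CharP (ResidueField R) ℓ := by
      obtain ⟨c, hc⟩ := CharP.exists (ResidueField R)
      have hcd : c ∣ ℓ := (CharP.cast_eq_zero_iff (ResidueField R) c ℓ).1 h2
      rcases (Nat.dvd_prime (Fact.out : ℓ.Prime)).1 hcd with h | h
      · subst h
        exact (CharP.false_of_nontrivial_of_char_one (R := ResidueField R)).elim
      · rwa [← h]
    have hdvd : ℓ ∣ Nat.card (ResidueField R) := by
      have : Fintype (ResidueField R) := Fintype.ofFinite _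
      obtain ⟨n, _, hn⟩ := FiniteField.card (ResidueField R) ℓ
      rw [Nat.card_eq_fintype_card, hn]
      exact dvd_pow_self _ n.2.ne'
    have hz : ((Nat.card (ResidueField R) : ℕ) : ZMod ℓ) = 0 :=
      (ZMod.natCast_eq_zero_iff _ _).2 hdvd
    rw [hz, orderOf_eq_zero_iff'.2] at hord
    · omega
    · intro n hn h
      rw [zero_pow hn.ne'] at h
      exact zero_ne_one h
  have hall : ∀ j : ℕ, s a - a ∈ maximalIdeal R ^ j := by
    intro j
    exact Ideal.pow_le_pow_right (Nat.le_succ j) (sub_mem_pow s h0 h1 ℓ hs hℓu j a)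
  have hbot : s a - a ∈ (⊥ : Ideal R) := by
    rw [← Ideal.iInf_pow_eq_bot_of_isLocalRing (maximalIdeal R) (maximalIdeal.isMaximal R).ne_top]
    exact Ideal.mem_iInf.2 hall
  rw [Ideal.mem_bot, sub_eq_zero] at hbot
  exact hbot

end Ring

end Pool.Agent.Helper44.CR
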