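import Mathlib
import Pool.Agent.Helper44.CR.Local

/-!
# Fixed rational points of an automorphism of prime order
-/

set_option autoImplicit false

open AlgebraicGeometry CategoryTheory IsLocalRing

namespace Pool.Agent.Helper44.CR

/-- The generic point of an integral scheme, as a morphism from the spectrum of a field `K`
identified with the function field. -/
noncomputable def genericMor {K : Type} [Field K] (X : Scheme.{0}) [IsIntegral X]
    (e : X.functionField ≃+* K) : Spec (CommRingCat.of K) ⟶ X :=
  Spec.map (CommRingCat.ofHom (e : X.functionField →+* K)) ≫ X.fromSpecStalk (genericPoint X)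

variable {K : Type} [Field K]

instance mono_genericMor (X : Scheme.{0}) [IsIntegral X] (e : X.functionField ≃+* K) :
    Mono (genericMor X e) := by
  have h : IsIso (CommRingCat.ofHom (e : X.functionField →+* K)) := by
    change IsIso (e.toCommRingCatIso.hom)
    infer_instance
  unfold genericMor
  infer_instance

/-- Iterates of an endomorphism. -/
def iter {X : Scheme.{0}} (τ : X ⟶ X) : ℕ → (X ⟶ X)
  | 0 => 𝟙 X
  | n + 1 => iter τ n ≫ τ

theorem genericMor_iter (X : Scheme.{0}) [IsIntegral X] (e : X.functionField ≃+* K)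
    (σ : K ≃+* K) (τ : X ⟶ X)
    (hτ : Spec.map (CommRingCat.ofHom (σ : K →+* K)) ≫ genericMor X e = genericMor X e ≫ τ)
    (n : ℕ) : Spec.map (CommRingCat.ofHom ((σ ^ n : RingAut K) : K →+* K)) ≫ genericMor X e
      = genericMor X e ≫ iter τ n := by
  induction n with
  | zero =>
    rw [pow_zero]
    have : CommRingCat.ofHom ((1 : RingAut K) : K →+* K) = 𝟙 (CommRingCat.of K) := rfl
    rw [this, Spec.map_id, Category.id_comp]
    exact (Category.comp_id _).symm
  | succ n ih =>
    have h : CommRingCat.ofHom ((σ ^ (n + 1) : RingAut K) : K →+* K)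
        = CommRingCat.ofHom ((σ : K →+* K)) ≫ CommRingCat.ofHom ((σ ^ n : RingAut K) : K →+* K) := by
      rw [pow_succ]
      rfl
    rw [h, Spec.map_comp, Category.assoc, hτ, ← Category.assoc, ih, Category.assoc]
    rfl

/-- The generic point morphism is dominant. -/
instance isDominant_genericMor (X : Scheme.{0}) [IsIntegral X] (e : X.functionField ≃+* K) :
    IsDominant (genericMor X e) := by
  constructor
  have hmem : genericPoint X ∈ Set.range (genericMor X e) := by
    refine ⟨(Spec.map (CommRingCat.ofHom (e.symm : K →+* X.functionField)))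
      (closedPoint X.functionField), ?_⟩
    unfold genericMor
    rw [← Scheme.Hom.comp_apply, ← Category.assoc, ← Spec.map_comp]
    have : CommRingCat.ofHom (e : X.functionField →+* K) ≫
        CommRingCat.ofHom (e.symm : K →+* X.functionField) = 𝟙 _ := by
      ext x
      exact e.symm_apply_apply x
    rw [this, Spec.map_id, Category.id_comp]
    exact Scheme.fromSpecStalk_closedPoint
  rw [DenseRange, dense_iff_closure_eq, ← Set.univ_subset_iff]
  have h2 : closure {genericPoint X} = Set.univ := genericPoint_spec X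
  rw [← h2]
  exact closure_mono (Set.singleton_subset_iff.2 hmem)

/-- If `σ` has order dividing `n`, so has its extension to a separated model. -/
theorem iter_eq_id (X : Scheme.{0}) [IsIntegral X] [X.IsSeparated] (e : X.functionField ≃+* K)
    (σ : K ≃+* K) (τ : X ⟶ X)
    (hτ : Spec.map (CommRingCat.ofHom (σ : K →+* K)) ≫ genericMor X e = genericMor X e ≫ τ)
    (n : ℕ) (hn : (σ ^ n : RingAut K) = 1) : iter τ n = 𝟙 X := by
  apply ext_of_isDominant (genericMor X e)
  rw [← genericMor_iter X e σ τ hτ, hn]
  have : CommRingCat.ofHom ((1 : RingAut K) : K →+* K) = 𝟙 (CommRingCat.of K) := rfl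
  rw [this, Spec.map_id, Category.id_comp, Category.comp_id]

/-- **Rigidity at a fixed point.** -/
theorem eq_one_of_fixed (X : Scheme.{0}) [IsIntegral X] [IsLocallyNoetherian X]
    (e : X.functionField ≃+* K) (σ : K ≃+* K) (τ : X ⟶ X)
    (hτ : Spec.map (CommRingCat.ofHom (σ : K →+* K)) ≫ genericMor X e = genericMor X e ≫ τ)
    (ℓ : ℕ) [Fact ℓ.Prime] (hℓ : iter τ ℓ = 𝟙 X) (F : Type) [Field F] [Finite F]
    (x : Spec (CommRingCat.of F) ⟶ X) (hx : x ≫ τ = x)
    (hord : 0 < orderOf ((Nat.card F : ℕ) : ZMod ℓ))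
    (hd : Module.finrank (ResidueField (X.presheaf.stalk (x (closedPoint F))))
      (CotangentSpace (X.presheaf.stalk (x (closedPoint F)))) <
        orderOf ((Nat.card F : ℕ) : ZMod ℓ) ∨
      (Module.finrank (ResidueField (X.presheaf.stalk (x (closedPoint F))))
      (CotangentSpace (X.presheaf.stalk (x (closedPoint F)))) ≤
        orderOf ((Nat.card F : ℕ) : ZMod ℓ) ∧
      ∃ z : ℕ, (z : X.presheaf.stalk (x (closedPoint F))) ∈
          maximalIdeal (X.presheaf.stalk (x (closedPoint F))) ∧
        (z : X.presheaf.stalk (x (closedPoint F))) ∉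
          maximalIdeal (X.presheaf.stalk (x (closedPoint F))) ^ 2)) : ∀ a, σ a = a := by
  set pt : X := x (closedPoint F) with hptdef
  have hpt : τ pt = pt := by
    have h1 : (x ≫ τ) (closedPoint F) = τ (x (closedPoint F)) := Scheme.Hom.comp_apply _ _ _
    rw [hx] at h1
    exact h1.symm
  let R := X.presheaf.stalk pt
  let s : R ⟶ R := X.presheaf.stalkSpecializes (specializes_of_eq hpt) ≫ τ.stalkMap pt
  have hs : Spec.map s ≫ X.fromSpecStalk pt = X.fromSpecStalk pt ≫ τ := by
    change Spec.map (X.presheaf.stalkSpecializes (specializes_of_eq hpt) ≫ τ.stalkMap pt) ≫ _ = _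
    rw [Spec.map_comp, Category.assoc, Scheme.SpecMap_stalkSpecializes_fromSpecStalk,
      Scheme.SpecMap_stalkMap_fromSpecStalk]
  -- iterates
  let sp : ℕ → (R ⟶ R) := fun n => Nat.rec (𝟙 R) (fun _ g => s ≫ g) n
  have hsp : ∀ n, Spec.map (sp n) ≫ X.fromSpecStalk pt = X.fromSpecStalk pt ≫ iter τ n := by
    intro n
    induction n with
    | zero =>
      change Spec.map (𝟙 R) ≫ _ = _ ≫ 𝟙 X
      rw [Spec.map_id, Category.id_comp, Category.comp_id]
    | succ n ih =>
      change Spec.map (s ≫ sp n) ≫ _ = _ ≫ iter τ n ≫ τ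
      rw [Spec.map_comp, Category.assoc, hs, ← Category.assoc, ih, Category.assoc]
  have hspiter : ∀ (n : ℕ) (a : R), (sp n).hom a = (s.hom)^[n] a := by
    intro n
    induction n with
    | zero => intro a; rfl
    | succ n ih =>
      intro a
      rw [Function.iterate_succ_apply, ← ih]
      rfl
  have hspl : sp ℓ = 𝟙 R := by
    apply Spec.map_injective
    rw [← cancel_mono (X.fromSpecStalk pt), hsp, hℓ, Category.comp_id, Spec.map_id,
      Category.id_comp]
  have hsl : ∀ a : R, (s.hom)^[ℓ] a = a := by
    intro a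
    rw [← hspiter, hspl]
    rfl
  -- the residue field
  let φ : R ⟶ CommRingCat.of F := Scheme.stalkClosedPointTo x
  have hφ : Spec.map φ ≫ X.fromSpecStalk pt = x := Scheme.Spec_stalkClosedPointTo_fromSpecStalk x
  have hsφ : s ≫ φ = φ := by
    apply Spec.map_injective
    rw [← cancel_mono (X.fromSpecStalk pt), Spec.map_comp, Category.assoc, hs, ← Category.assoc,
      hφ, hx]
  have hφloc : IsLocalHom φ.hom := Scheme.isLocalHom_stalkClosedPointTo' x
  have hker : ∀ a : R, φ.hom a = 0 → a ∈ maximalIdeal R := by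
    intro a ha
    rw [mem_maximalIdeal, mem_nonunits_iff]
    intro hu
    have := hu.map φ.hom
    rw [ha] at this
    exact not_isUnit_zero this
  have h0 : ∀ a : R, s.hom a - a ∈ maximalIdeal R := by
    intro a
    apply hker
    rw [map_sub, sub_eq_zero]
    have := congrArg (fun g : R ⟶ CommRingCat.of F => g.hom a) hsφ
    exact this
  let ψ : ResidueField R →+* F := ResidueField.lift φ.hom
  have hψ : Function.Injective ψ := ψ.injective
  have hfin : Finite (ResidueField R) := Finite.of_injective ψ hψ
  -- comparison of orders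
  have hcard : ∃ t : ℕ, Nat.card F = Nat.card (ResidueField R) ^ t := by
    letI : Algebra (ResidueField R) F := ψ.toAlgebra
    exact ⟨_, Module.natCard_eq_pow_finrank (K := ResidueField R) (V := F)⟩
  have hord' : 0 < orderOf ((Nat.card (ResidueField R) : ℕ) : ZMod ℓ) := by
    obtain ⟨t, ht⟩ := hcard
    have hpos := hord
    rw [orderOf_pos_iff] at hpos ⊢
    obtain ⟨m, hm, hm1⟩ := (isOfFinOrder_iff_pow_eq_one).1 hpos
    have ht0 : t ≠ 0 := by
      rintro rfl
      rw [pow_zero] at ht
      have := Finite.one_lt_card (α := F)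
      omega
    rw [ht, Nat.cast_pow, ← pow_mul] at hm1
    exact isOfFinOrder_iff_pow_eq_one.2 ⟨t * m, Nat.mul_pos (Nat.pos_of_ne_zero ht0) hm, hm1⟩
  have hle : orderOf ((Nat.card F : ℕ) : ZMod ℓ) ≤
      orderOf ((Nat.card (ResidueField R) : ℕ) : ZMod ℓ) := by
    obtain ⟨t, ht⟩ := hcard
    rw [ht, Nat.cast_pow]
    exact Nat.le_of_dvd hord' (orderOf_pow_dvd t)
  have hnoeth : IsNoetherianRing R := inferInstance
  have hs1 : ∀ a : R, s.hom a = a := by
    intro a
    refine local_trivial s.hom ℓ hsl h0 hord' ?_ a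
    rcases hd with hd | ⟨hd, z, hz, hz2⟩
    · left
      exact lt_of_lt_of_le hd hle
    · right
      exact ⟨hd.trans hle, z, hz, hz2, map_natCast _ _⟩
  have hsid : s = 𝟙 R := by
    ext a
    exact hs1 a
  have hfix : X.fromSpecStalk pt ≫ τ = X.fromSpecStalk pt := by
    rw [← hs, hsid, Spec.map_id, Category.id_comp]
  have hspec : genericPoint X ⤳ pt := (genericPoint_spec X).specializes trivial
  have hj : genericMor X e ≫ τ = genericMor X e := by
    have h1 : genericMor X e = (Spec.map (CommRingCat.ofHom (e : X.functionField →+* K)) ≫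
        Spec.map (X.presheaf.stalkSpecializes hspec)) ≫ X.fromSpecStalk pt := by
      rw [Category.assoc, Scheme.SpecMap_stalkSpecializes_fromSpecStalk]
      rfl
    rw [h1, Category.assoc, hfix]
  rw [hj] at hτ
  have h2 : Spec.map (CommRingCat.ofHom (σ : K →+* K)) = Spec.map (𝟙 (CommRingCat.of K)) := by
    rw [← cancel_mono (genericMor X e), hτ, Spec.map_id, Category.id_comp]
  have h3 := Spec.map_injective h2
  intro a
  exact congrArg (fun g : CommRingCat.of K ⟶ CommRingCat.of K => g.hom a) h3

/-- **Divisibility of point counts.** -/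
theorem dvd_card_points (X : Scheme.{0}) [IsIntegral X] [IsLocallyNoetherian X]
    (e : X.functionField ≃+* K) (σ : K ≃+* K) (τ : X ⟶ X)
    (hτ : Spec.map (CommRingCat.ofHom (σ : K →+* K)) ≫ genericMor X e = genericMor X e ≫ τ)
    (ℓ : ℕ) [Fact ℓ.Prime] (hℓ : iter τ ℓ = 𝟙 X) (hσ : ∃ a, σ a ≠ a) (F : Type) [Field F]
    [Finite F] (hord : 0 < orderOf ((Nat.card F : ℕ) : ZMod ℓ))
    (hd : ∀ x : Spec (CommRingCat.of F) ⟶ X,
      Module.finrank (ResidueField (X.presheaf.stalk (x (closedPoint F))))
        (CotangentSpace (X.presheaf.stalk (x (closedPoint F)))) <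
          orderOf ((Nat.card F : ℕ) : ZMod ℓ) ∨
      (Module.finrank (ResidueField (X.presheaf.stalk (x (closedPoint F))))
      (CotangentSpace (X.presheaf.stalk (x (closedPoint F)))) ≤
        orderOf ((Nat.card F : ℕ) : ZMod ℓ) ∧
      ∃ z : ℕ, (z : X.presheaf.stalk (x (closedPoint F))) ∈
          maximalIdeal (X.presheaf.stalk (x (closedPoint F))) ∧
        (z : X.presheaf.stalk (x (closedPoint F))) ∉
          maximalIdeal (X.presheaf.stalk (x (closedPoint F))) ^ 2)) :
    ℓ ∣ Nat.card (Spec (CommRingCat.of F) ⟶ X) := by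
  classical
  by_cases hfin : Finite (Spec (CommRingCat.of F) ⟶ X)
  · have : Fintype (Spec (CommRingCat.of F) ⟶ X) := Fintype.ofFinite _
    let f : Function.End (Spec (CommRingCat.of F) ⟶ X) := fun x => x ≫ τ
    have hf : f ^ ℓ ^ 1 = 1 := by
      have h1 : ∀ (n : ℕ) (x : Spec (CommRingCat.of F) ⟶ X), (f ^ n) x = x ≫ iter τ n := by
        intro n
        induction n with
        | zero => intro x; exact (Category.comp_id x).symm
        | succ n ih =>
          intro x
          rw [pow_succ']
          change f ((f ^ n) x) = _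
          rw [ih]
          change (x ≫ iter τ n) ≫ τ = x ≫ iter τ n ≫ τ
          rw [Category.assoc]
      funext x
      rw [pow_one, h1, hℓ, Category.comp_id]
      rfl
    have hmod := Equiv.Perm.card_fixedPoints_modEq (f := f) (p := ℓ) (n := 1) hf
    have hempty : IsEmpty f.fixedPoints := by
      constructor
      rintro ⟨x, hx⟩
      obtain ⟨a, ha⟩ := hσ
      exact ha (eq_one_of_fixed X e σ τ hτ ℓ hℓ F x hx hord (hd x) a)
    rw [Fintype.card_eq_zero_iff.2 hempty] at hmod
    rw [Nat.card_eq_fintype_card]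
    exact (Nat.modEq_zero_iff_dvd).1 hmod
  · have hinf : Infinite (Spec (CommRingCat.of F) ⟶ X) := not_finite_iff_infinite.1 hfin
    rw [Nat.card_eq_zero_of_infinite]
    exact dvd_zero _

end Pool.Agent.Helper44.CR
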