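import Mathlib

/-!
# Embedding dimension of smooth models
-/

set_option autoImplicit false

open AlgebraicGeometry CategoryTheory IsLocalRing

namespace Pool.Agent.Helper44.CR

/-- Embedding dimension of the local rings of a regular ring. -/
theorem spanFinrank_le_of_regular (C : Type*) [CommRing C] [IsRegularRing C] (N : ℕ)
    (hdim : ringKrullDim C ≤ N) (q : Ideal C) [q.IsPrime] :
    (maximalIdeal (Localization.AtPrime q)).spanFinrank ≤ N := by
  have h := IsRegularRing.isRegularLocalRing_localization q
  have h1 := (isRegularLocalRing_iff (Localization.AtPrime q)).1 h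
  have h2 : ringKrullDim (Localization.AtPrime q) ≤ ringKrullDim C := by
    rw [IsLocalization.AtPrime.ringKrullDim_eq_height q]
    exact Ideal.height_le_ringKrullDim_of_isPrime
  rw [← h1] at h2
  exact_mod_cast h2.trans hdim

/-- Transport to an arbitrary localization at a prime. -/
theorem finrank_of_isLocalization {C : Type*} [CommRing C] (q : Ideal C) [q.IsPrime]
    (R : Type*) [CommRing R] [Algebra C R] [IsLocalization.AtPrime R q] [IsLocalRing R]
    [IsNoetherianRing R] (N : ℕ)
    (h : (maximalIdeal (Localization.AtPrime q)).spanFinrank ≤ N) :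
    Module.finrank (ResidueField R) (CotangentSpace R) ≤ N := by
  rw [← spanFinrank_maximalIdeal_eq_finrank_cotangentSpace]
  let ε : Localization.AtPrime q ≃+* R :=
    (IsLocalization.algEquiv q.primeCompl (Localization.AtPrime q) R).toRingEquiv
  have e : maximalIdeal R = (maximalIdeal (Localization.AtPrime q)).map ε :=
    (map_ringEquiv_maximalIdeal ε).symm
  rw [e, Ideal.spanFinrank_map_eq_of_ringEquiv]
  exact h

/-- Embedding dimension of étale algebras over a regular ring. -/
theorem spanFinrank_le_of_etale {C B : Type*} [CommRing C] [IsRegularRing C] [CommRing B]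
    [Algebra C B] [Algebra.Etale C B] (N : ℕ) (hdim : ringKrullDim C ≤ N) (q : Ideal B)
    [q.IsPrime] : (maximalIdeal (Localization.AtPrime q)).spanFinrank ≤ N := by
  set p : Ideal C := q.under C with hp
  have hlies : q.LiesOver p := ⟨rfl⟩
  let _alg := Localization.AtPrime.algebraOfLiesOver p q
  have hun : Algebra.IsUnramifiedAt C q := inferInstance
  have h := ((Algebra.isUnramifiedAt_iff_map_eq C p q).1 hun).2
  rw [← h, IsScalarTower.algebraMap_eq C (Localization.AtPrime p) (Localization.AtPrime q),
    ← Ideal.map_map, Localization.AtPrime.map_eq_maximalIdeal]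
  have hnoeth : IsNoetherianRing (Localization.AtPrime p) := inferInstance
  exact (Ideal.spanFinrank_map_le_of_fg _ (IsNoetherian.noetherian _)).trans
    (spanFinrank_le_of_regular C N hdim p)

/-- Embedding dimension of a standard smooth algebra, at a localization of a ring `B₀` of which
the standard smooth algebra is a principal localization. -/
theorem finrank_le_of_standardSmooth {A B₀ B₁ : Type} [CommRing A] [CommRing B₀]
    [CommRing B₁] [Algebra B₀ B₁] (t : B₀) [IsLocalization.Away t B₁]
    [IsRegularRing A] (n N : ℕ) (hA : ringKrullDim A + n ≤ N) (g : A →+* B₁)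
    (hg : g.IsStandardSmoothOfRelativeDimension n) (q : Ideal B₀) [q.IsPrime] (ht : t ∉ q)
    (R : Type) [CommRing R] [Algebra B₀ R] [IsLocalization.AtPrime R q] [IsLocalRing R]
    [IsNoetherianRing R] : Module.finrank (ResidueField R) (CotangentSpace R) ≤ N := by
  obtain ⟨h, -, het⟩ := hg.exists_etale_mvPolynomial
  let _alg : Algebra (MvPolynomial (Fin n) A) B₁ := h.toAlgebra
  have het' : Algebra.Etale (MvPolynomial (Fin n) A) B₁ := het
  have hdim : ringKrullDim (MvPolynomial (Fin n) A) ≤ N := by
    rw [MvPolynomial.ringKrullDim_of_isNoetherianRing, Nat.card_eq_fintype_card, Fintype.card_fin]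
    exact hA
  -- the prime of `B₁`
  have hdisj : Disjoint (Submonoid.powers t : Set B₀) (q : Set B₀) := by
    rw [Set.disjoint_left]
    rintro _ ⟨k, rfl⟩ hk
    exact ht (Ideal.IsPrime.mem_of_pow_mem inferInstance k hk)
  have hq1 : (q.map (algebraMap B₀ B₁)).IsPrime :=
    IsLocalization.isPrime_of_isPrime_disjoint (Submonoid.powers t) B₁ q inferInstance hdisj
  have hcomap : (q.map (algebraMap B₀ B₁)).comap (algebraMap B₀ B₁) = q :=
    IsLocalization.under_map_of_isPrime_disjoint (Submonoid.powers t) B₁ inferInstance hdisj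
  have h1 := spanFinrank_le_of_etale (C := MvPolynomial (Fin n) A) N hdim
    (q.map (algebraMap B₀ B₁))
  set T := Localization.AtPrime (q.map (algebraMap B₀ B₁)) with hT
  have hst : IsScalarTower B₀ B₁ T := inferInstance
  have h2 : IsLocalization.AtPrime T ((q.map (algebraMap B₀ B₁)).comap (algebraMap B₀ B₁)) :=
    IsLocalization.isLocalization_isLocalization_atPrime_isLocalization (Submonoid.powers t) T
      (q.map (algebraMap B₀ B₁))
  have h3 : IsLocalization q.primeCompl T := by
    have e : ((q.map (algebraMap B₀ B₁)).comap (algebraMap B₀ B₁)).primeCompl = q.primeCompl := by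
      ext x
      change x ∉ (q.map (algebraMap B₀ B₁)).comap (algebraMap B₀ B₁) ↔ x ∉ q
      rw [hcomap]
    rw [← e]
    exact h2
  rw [← spanFinrank_maximalIdeal_eq_finrank_cotangentSpace]
  let ε : T ≃+* R := (IsLocalization.algEquiv q.primeCompl T R).toRingEquiv
  have e : maximalIdeal R = (maximalIdeal T).map ε := (map_ringEquiv_maximalIdeal ε).symm
  rw [e, Ideal.spanFinrank_map_eq_of_ringEquiv]
  exact h1

/-- Formal smoothness over `ℤ` of a localization of a standard smooth algebra. -/
theorem formallySmooth_of_standardSmooth {A B₀ B₁ : Type} [CommRing A] [CommRing B₀]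
    [CommRing B₁] [Algebra B₀ B₁] (t : B₀) [IsLocalization.Away t B₁]
    [Algebra.FormallySmooth ℤ A] (n : ℕ) (g : A →+* B₁)
    (hg : g.IsStandardSmoothOfRelativeDimension n) (q : Ideal B₀) [q.IsPrime] (ht : t ∉ q)
    (R : Type) [CommRing R] [Algebra B₀ R] [IsLocalization.AtPrime R q] :
    Algebra.FormallySmooth ℤ R := by
  let _alg : Algebra A B₁ := g.toAlgebra
  have hstd : Algebra.IsStandardSmooth A B₁ := hg.isStandardSmooth
  have hsm : Algebra.FormallySmooth A B₁ := inferInstance
  have hB₁ : Algebra.FormallySmooth ℤ B₁ := Algebra.FormallySmooth.comp ℤ A B₁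
  -- the prime of `B₁`
  have hdisj : Disjoint (Submonoid.powers t : Set B₀) (q : Set B₀) := by
    rw [Set.disjoint_left]
    rintro _ ⟨k, rfl⟩ hk
    exact ht (Ideal.IsPrime.mem_of_pow_mem inferInstance k hk)
  have hq1 : (q.map (algebraMap B₀ B₁)).IsPrime :=
    IsLocalization.isPrime_of_isPrime_disjoint (Submonoid.powers t) B₁ q inferInstance hdisj
  have hcomap : (q.map (algebraMap B₀ B₁)).comap (algebraMap B₀ B₁) = q :=
    IsLocalization.under_map_of_isPrime_disjoint (Submonoid.powers t) B₁ inferInstance hdisj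
  set T := Localization.AtPrime (q.map (algebraMap B₀ B₁)) with hT
  have hTfs : Algebra.FormallySmooth ℤ T := inferInstance
  have hst : IsScalarTower B₀ B₁ T := inferInstance
  have h2 : IsLocalization.AtPrime T ((q.map (algebraMap B₀ B₁)).comap (algebraMap B₀ B₁)) :=
    IsLocalization.isLocalization_isLocalization_atPrime_isLocalization (Submonoid.powers t) T
      (q.map (algebraMap B₀ B₁))
  have h3 : IsLocalization q.primeCompl T := by
    have e : ((q.map (algebraMap B₀ B₁)).comap (algebraMap B₀ B₁)).primeCompl = q.primeCompl := by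
      ext x
      change x ∉ (q.map (algebraMap B₀ B₁)).comap (algebraMap B₀ B₁) ↔ x ∉ q
      rw [hcomap]
    rw [← e]
    exact h2
  let ε : T ≃+* R := (IsLocalization.algEquiv q.primeCompl T R).toRingEquiv
  let ε' : T ≃ₐ[ℤ] R :=
    { ε with
      commutes' := fun r => by
        rw [eq_intCast (algebraMap ℤ T) r, eq_intCast (algebraMap ℤ R) r]
        exact map_intCast ε r }
  exact Algebra.FormallySmooth.of_equiv ε'

/-- The local rings of a smooth scheme over `ℤ` are formally smooth over `ℤ`. -/
theorem formallySmooth_stalk (n : ℕ) (X : Scheme.{0}) (f : X ⟶ Spec (CommRingCat.of ℤ))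
    [SmoothOfRelativeDimension n f] (x : X) : Algebra.FormallySmooth ℤ (X.presheaf.stalk x) := by
  obtain ⟨_, ⟨V, hV, rfl⟩, hxV, -⟩ :=
    X.isBasis_affineOpens.exists_subset_of_mem_open (Set.mem_univ x) isOpen_univ
  have hloc := HasRingHomProperty.appLE (@SmoothOfRelativeDimension n) f inferInstance
    ⟨⊤, isAffineOpen_top _⟩ ⟨V, hV⟩ le_top
  obtain ⟨s, hs, hP⟩ := hloc
  let _alg : Algebra Γ(X, V) (X.presheaf.stalk x) := (X.presheaf.germ V x hxV).hom.toAlgebra
  have hst := hV.isLocalization_stalk ⟨x, hxV⟩
  set q := (hV.primeIdealOf ⟨x, hxV⟩).asIdeal with hq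
  obtain ⟨t, hts, htq⟩ : ∃ t ∈ s, t ∉ q := by
    by_contra hcon
    push Not at hcon
    have : Ideal.span s ≤ q := Ideal.span_le.2 hcon
    rw [hs] at this
    exact (inferInstance : q.IsPrime).ne_top (top_le_iff.1 this)
  have hA : Algebra.FormallySmooth ℤ Γ(Spec (CommRingCat.of ℤ), ⊤) :=
    Algebra.FormallySmooth.of_equiv
      ((Scheme.ΓSpecIso (CommRingCat.of ℤ)).symm.commRingCatIsoToRingEquiv.toIntAlgEquiv :
        ℤ ≃ₐ[ℤ] Γ(Spec (CommRingCat.of ℤ), ⊤))
  exact formallySmooth_of_standardSmooth (B₁ := Localization.Away t) t n _ (hP t hts) q htq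
    (X.presheaf.stalk x)

/-- **Embedding dimension of smooth schemes** over a regular ring. -/
theorem finrank_le_of_smooth {A : Type} [CommRing A] [IsRegularRing A] (n N : ℕ)
    (hA : ringKrullDim A + n ≤ N) (X : Scheme.{0}) (f : X ⟶ Spec (CommRingCat.of A))
    [SmoothOfRelativeDimension n f] (x : X) [IsNoetherianRing (X.presheaf.stalk x)] :
    Module.finrank (ResidueField (X.presheaf.stalk x)) (CotangentSpace (X.presheaf.stalk x))
      ≤ N := by
  obtain ⟨_, ⟨V, hV, rfl⟩, hxV, -⟩ :=
    X.isBasis_affineOpens.exists_subset_of_mem_open (Set.mem_univ x) isOpen_univ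
  have hloc := HasRingHomProperty.appLE (@SmoothOfRelativeDimension n) f inferInstance
    ⟨⊤, isAffineOpen_top _⟩ ⟨V, hV⟩ le_top
  obtain ⟨s, hs, hP⟩ := hloc
  let _alg : Algebra Γ(X, V) (X.presheaf.stalk x) := (X.presheaf.germ V x hxV).hom.toAlgebra
  have hst := hV.isLocalization_stalk ⟨x, hxV⟩
  set q := (hV.primeIdealOf ⟨x, hxV⟩).asIdeal with hq
  obtain ⟨t, hts, htq⟩ : ∃ t ∈ s, t ∉ q := by
    by_contra hcon
    push Not at hcon
    have : Ideal.span s ≤ q := Ideal.span_le.2 hcon
    rw [hs] at this
    exact (inferInstance : q.IsPrime).ne_top (top_le_iff.1 this)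
  have hreg : IsRegularRing Γ(Spec (CommRingCat.of A), ⊤) :=
    IsRegularRing.of_ringEquiv
      ((Scheme.ΓSpecIso (CommRingCat.of A)).symm.commRingCatIsoToRingEquiv)
  have hdim : ringKrullDim Γ(Spec (CommRingCat.of A), ⊤) + n ≤ N := by
    rw [ringKrullDim_eq_of_ringEquiv
      ((Scheme.ΓSpecIso (CommRingCat.of A)).commRingCatIsoToRingEquiv)]
    exact hA
  exact finrank_le_of_standardSmooth (B₁ := Localization.Away t) t n N hdim _ (hP t hts) q htq
    (X.presheaf.stalk x)

end Pool.Agent.Helper44.CR
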