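import Mathlib

/-!
# `p ∉ m ^ 2` for local rings which are formally smooth over `ℤ`
-/

set_option autoImplicit false

open IsLocalRing

namespace Pool.Agent.Helper44.CR

/-- In a local ring which is formally smooth over `ℤ`, with perfect residue field of
characteristic `p`, the element `p` is not in the square of the maximal ideal. -/
theorem natCast_notMem_sq {R : Type} [CommRing R] [IsLocalRing R] [Algebra.FormallySmooth ℤ R]
    (p : ℕ) [Fact p.Prime] [CharP (ResidueField R) p] [PerfectRing (ResidueField R) p] :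
    (p : R) ∉ maximalIdeal R ^ 2 := by
  intro hmem
  let κ := ResidueField R
  let W := WittVector p κ
  let W₂ := W ⧸ Ideal.span {((p : W) ^ 2)}
  have hker : RingHom.ker (WittVector.constantCoeff (R := κ) (p := p)) = Ideal.span {(p : W)} :=
    WittVector.ker_constantCoeff
  have hle : ∀ a ∈ Ideal.span {((p : W) ^ 2)}, WittVector.constantCoeff (R := κ) (p := p) a = 0 := by
    intro a ha
    obtain ⟨b, rfl⟩ := Ideal.mem_span_singleton.1 ha
    have : WittVector.constantCoeff (R := κ) (p := p) (p : W) = 0 := by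
      rw [← RingHom.mem_ker, hker]
      exact Ideal.mem_span_singleton_self _
    rw [map_mul, map_pow, this]
    ring
  let g₀ : W₂ →+* κ := Ideal.Quotient.lift _ (WittVector.constantCoeff (R := κ) (p := p)) hle
  have hg₀ : Function.Surjective g₀ :=
    Ideal.Quotient.lift_surjective_of_surjective _ hle (WittVector.constantCoeff_surjective p)
  have hkg : RingHom.ker g₀ ≤ Ideal.span {(p : W₂)} := by
    intro a ha
    obtain ⟨b, rfl⟩ := Ideal.Quotient.mk_surjective a
    rw [RingHom.mem_ker, Ideal.Quotient.lift_mk, ← RingHom.mem_ker, hker,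
      Ideal.mem_span_singleton] at ha
    obtain ⟨c, rfl⟩ := ha
    rw [map_mul, map_natCast]
    exact Ideal.mul_mem_right _ _ (Ideal.mem_span_singleton_self _)
  have hp2 : (p : W₂) ^ 2 = 0 := by
    have : (p : W₂) ^ 2 = Ideal.Quotient.mk (Ideal.span {((p : W) ^ 2)}) ((p : W) ^ 2) := by
      rw [map_pow, map_natCast]
    rw [this, Ideal.Quotient.eq_zero_iff_mem]
    exact Ideal.mem_span_singleton_self _
  have hsq : RingHom.ker g₀ ^ 2 = ⊥ := by
    rw [eq_bot_iff]
    refine (Ideal.pow_right_mono hkg 2).trans ?_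
    rw [Ideal.span_singleton_pow, hp2, Ideal.span_singleton_eq_bot.2 rfl]
  let g : W₂ →ₐ[ℤ] κ := g₀.toIntAlgHom
  let f : R →ₐ[ℤ] κ := (residue R).toIntAlgHom
  have hnil : IsNilpotent (RingHom.ker (g : W₂ →+* κ)) := ⟨2, hsq⟩
  let h : R →ₐ[ℤ] W₂ := Algebra.FormallySmooth.liftOfSurjective f g hg₀ hnil
  have hh : ∀ a, g₀ (h a) = residue R a := fun a =>
    Algebra.FormallySmooth.liftOfSurjective_apply f g hg₀ hnil a
  have hm : (maximalIdeal R).map (h : R →+* W₂) ≤ RingHom.ker g₀ := by
    rw [Ideal.map_le_iff_le_comap]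
    intro a ha
    rw [Ideal.mem_comap, RingHom.mem_ker]
    change g₀ (h a) = 0
    rw [hh, residue_eq_zero_iff]
    exact ha
  have h2 : h (p : R) ∈ RingHom.ker g₀ ^ 2 := by
    have h3 : h (p : R) ∈ (maximalIdeal R ^ 2).map (h : R →+* W₂) := Ideal.mem_map_of_mem _ hmem
    rw [Ideal.map_pow] at h3
    exact Ideal.pow_right_mono hm 2 h3
  rw [hsq, Ideal.mem_bot, map_natCast] at h2
  have h4 : (p : W) ∈ Ideal.span {((p : W) ^ 2)} := by
    rw [← Ideal.Quotient.eq_zero_iff_mem, map_natCast]
    exact h2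
  obtain ⟨c, hc⟩ := Ideal.mem_span_singleton.1 h4
  have hpW : (p : W) ≠ 0 := WittVector.p_nonzero p κ
  have h5 : (1 : W) = p * c := by
    apply mul_left_cancel₀ hpW
    rw [mul_one]
    nth_rewrite 1 [hc]
    ring
  have h6 : (1 : κ) = 0 := by
    have h7 := congrArg (WittVector.constantCoeff (R := κ) (p := p)) h5
    rw [map_one, map_mul] at h7
    have : WittVector.constantCoeff (R := κ) (p := p) (p : W) = 0 := by
      rw [← RingHom.mem_ker, hker]
      exact Ideal.mem_span_singleton_self _
    rw [this, zero_mul] at h7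
    exact h7
  exact one_ne_zero h6

end Pool.Agent.Helper44.CR
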