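import Mathlib
import Pool.Agent.Helper44.CR.Sch
import Pool.Agent.Helper44.CR.Cnt
import Pool.Agent.Helper44.CR.Smo
import Pool.Agent.Helper44.CR.Wit

/-!
# The general theorem on point counts
-/

set_option autoImplicit false

open AlgebraicGeometry CategoryTheory IsLocalRing

namespace Pool.Agent.Helper44.CR

/-- The function `N` agrees modulo `ℓ` with a nonzero polynomial of degree at most `n` in `p ^ k`,
for all `k` prime to some `M`. -/
def QuasiPoly (ℓ p n : ℕ) (N : ℕ → ℕ) : Prop :=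
  ∃ (M : ℕ) (P : Polynomial (ZMod ℓ)), 0 < M ∧ P ≠ 0 ∧ P.natDegree ≤ n ∧
    ∀ k : ℕ, 0 < k → k.Coprime M → (N k : ZMod ℓ) = P.eval ((p : ZMod ℓ) ^ k)

theorem orderOf_pow_of_coprime {ℓ : ℕ} (a : ZMod ℓ) (k : ℕ) (hk : k.Coprime (orderOf a)) :
    orderOf (a ^ k) = orderOf a := by
  exact Nat.Coprime.orderOf_pow hk.symm

/-- The residue field at the image of an `F`-point embeds in `F`. -/
theorem exists_residue_embedding (X : Scheme.{0}) (F : Type) [Field F]
    (x : Spec (CommRingCat.of F) ⟶ X) :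
    Nonempty (ResidueField (X.presheaf.stalk (x (closedPoint F))) →+* F) := by
  let φ : X.presheaf.stalk (x (closedPoint F)) ⟶ CommRingCat.of F := Scheme.stalkClosedPointTo x
  have hφloc : IsLocalHom φ.hom := Scheme.isLocalHom_stalkClosedPointTo' x
  exact ⟨ResidueField.lift φ.hom⟩

/-- The embedding dimension condition at a point `x`: the local ring has embedding dimension
`< N`, or `≤ N` and `p ∉ m ^ 2` (i.e. the fibre over `p` has embedding dimension `< N` at `x`). -/
def EmbDimLT (X : Scheme.{0}) (p N : ℕ) (x : X) : Prop :=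
  Module.finrank (ResidueField (X.presheaf.stalk x)) (CotangentSpace (X.presheaf.stalk x)) < N ∨
    (Module.finrank (ResidueField (X.presheaf.stalk x)) (CotangentSpace (X.presheaf.stalk x)) ≤ N ∧
      (p : X.presheaf.stalk x) ∉ maximalIdeal (X.presheaf.stalk x) ^ 2)

/-- **Divisibility, general form.** -/
theorem dvd_count {K : Type} [Field K] (σ : RingAut K) (ℓ : ℕ) (hℓ : ℓ.Prime)
    (hσ : orderOf σ = ℓ) (X : Scheme.{0}) [IsIntegral X] [X.IsSeparated] [IsLocallyNoetherian X]
    (e : X.functionField ≃+* K) (τ : X ⟶ X)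
    (hτ : Spec.map (CommRingCat.ofHom (σ : K →+* K)) ≫ genericMor X e = genericMor X e ≫ τ)
    (p : ℕ) [Fact p.Prime] (hord : 0 < orderOf (p : ZMod ℓ))
    (hd : ∀ x : X, Finite (ResidueField (X.presheaf.stalk x)) →
      CharP (ResidueField (X.presheaf.stalk x)) p → EmbDimLT X p (orderOf (p : ZMod ℓ)) x)
    (k : ℕ) (hk0 : 0 < k) (hk : k.Coprime (orderOf (p : ZMod ℓ))) :
    ℓ ∣ Nat.card (Spec (CommRingCat.of (GaloisField p k)) ⟶ X) := by
  have : Fact ℓ.Prime := ⟨hℓ⟩
  have h1 : iter τ ℓ = 𝟙 X := by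
    apply iter_eq_id X e σ τ hτ ℓ
    rw [← hσ]
    exact pow_orderOf_eq_one σ
  have hcard : Nat.card (GaloisField p k) = p ^ k := GaloisField.card p k hk0.ne'
  have hpow : orderOf ((Nat.card (GaloisField p k) : ℕ) : ZMod ℓ) = orderOf (p : ZMod ℓ) := by
    rw [hcard, Nat.cast_pow, orderOf_pow_of_coprime _ k hk]
  refine dvd_card_points X e σ τ hτ ℓ h1 ?_ (GaloisField p k) (by rw [hpow]; exact hord)
    (fun x => ?_)
  · by_contra hcon
    push Not at hcon
    have h2 : σ = 1 := by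
      ext a
      exact hcon a
    rw [h2, orderOf_one] at hσ
    exact hℓ.ne_one hσ.symm
  · obtain ⟨ψ⟩ := exists_residue_embedding X (GaloisField p k) x
    have hchar : CharP (ResidueField (X.presheaf.stalk (x (closedPoint (GaloisField p k))))) p :=
      (RingHom.charP_iff ψ ψ.injective p).2 inferInstance
    rw [hpow]
    rcases hd _ (Finite.of_injective ψ ψ.injective) hchar with h | ⟨h, hp⟩
    · left
      exact h
    · right
      refine ⟨h, p, ?_, hp⟩
      rw [← residue_eq_zero_iff, map_natCast]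
      exact CharP.cast_eq_zero _ p

/-- **The main theorem in terms of embedding dimensions.** -/
theorem totient_le_of_quasiPoly {K : Type} [Field K] (σ : RingAut K) (ℓ : ℕ) (hℓ : ℓ.Prime)
    (hσ : orderOf σ = ℓ) (X : Scheme.{0}) [IsIntegral X] [X.IsSeparated] [IsLocallyNoetherian X]
    (e : X.functionField ≃+* K) (τ : X ⟶ X)
    (hτ : Spec.map (CommRingCat.ofHom (σ : K →+* K)) ≫ genericMor X e = genericMor X e ≫ τ)
    (p : ℕ) [Fact p.Prime]
    (hd : ∀ x : X, Finite (ResidueField (X.presheaf.stalk x)) →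
      CharP (ResidueField (X.presheaf.stalk x)) p → EmbDimLT X p (orderOf (p : ZMod ℓ)) x)
    (n : ℕ)
    (hcount : QuasiPoly ℓ p n (fun k => Nat.card (Spec (CommRingCat.of (GaloisField p k)) ⟶ X))) :
    Nat.totient (orderOf (p : ZMod ℓ)) ≤ n := by
  have : Fact ℓ.Prime := ⟨hℓ⟩
  rcases Nat.eq_zero_or_pos (orderOf (p : ZMod ℓ)) with h0 | hord
  · rw [h0]
    simp
  have hp0 : (p : ZMod ℓ) ≠ 0 := by
    intro hp0
    rw [hp0, orderOf_eq_zero_iff'.2] at hord
    · omega
    · intro m hm h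
      rw [zero_pow hm.ne'] at h
      exact zero_ne_one h
  obtain ⟨M, P, hM, hP, hdeg, hN⟩ := hcount
  refine (totient_le_natDegree ℓ (p : ZMod ℓ) hp0 M hM P hP ?_).trans hdeg
  intro k hk0 hkM hkd
  rw [← hN k hk0 hkM]
  exact (ZMod.natCast_eq_zero_iff _ _).2 (dvd_count σ ℓ hℓ hσ X e τ hτ p hord hd k hk0 hkd)

theorem krullDim_int_add (n : ℕ) : ringKrullDim ℤ + n ≤ (n + 1 : ℕ) := by
  rw [IsPrincipalIdealRing.ringKrullDim_eq_one ℤ Int.not_isField, add_comm]
  norm_cast

/-- Smooth schemes over `ℤ` satisfy the embedding dimension condition. -/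
theorem embDimLT_of_smooth (X : Scheme.{0}) [IsLocallyNoetherian X]
    (f : X ⟶ Spec (CommRingCat.of ℤ)) (n : ℕ) [SmoothOfRelativeDimension n f] (p : ℕ)
    [Fact p.Prime] (N : ℕ) (hN : n < N) (x : X) (hfin : Finite (ResidueField (X.presheaf.stalk x)))
    (hchar : CharP (ResidueField (X.presheaf.stalk x)) p) : EmbDimLT X p N x := by
  right
  constructor
  · exact (finrank_le_of_smooth n (n + 1) (krullDim_int_add n) X f x).trans hN
  · have hsm : Algebra.FormallySmooth ℤ (X.presheaf.stalk x) := formallySmooth_stalk n X f x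
    have hperf : PerfectRing (ResidueField (X.presheaf.stalk x)) p :=
      PerfectRing.ofFiniteOfIsReduced _ _
    exact natCast_notMem_sq p

/-- **Divisibility for smooth models.** -/
theorem dvd_count_of_smooth {K : Type} [Field K] (σ : RingAut K) (ℓ : ℕ) (hℓ : ℓ.Prime)
    (hσ : orderOf σ = ℓ) (X : Scheme.{0}) [IsIntegral X] [X.IsSeparated]
    (f : X ⟶ Spec (CommRingCat.of ℤ)) (n : ℕ) [SmoothOfRelativeDimension n f]
    (e : X.functionField ≃+* K) (τ : X ⟶ X)
    (hτ : Spec.map (CommRingCat.ofHom (σ : K →+* K)) ≫ genericMor X e = genericMor X e ≫ τ)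
    (p : ℕ) [Fact p.Prime] (hn : n < orderOf (p : ZMod ℓ))
    (k : ℕ) (hk0 : 0 < k) (hk : k.Coprime (orderOf (p : ZMod ℓ))) :
    ℓ ∣ Nat.card (Spec (CommRingCat.of (GaloisField p k)) ⟶ X) := by
  have hsm : Smooth f := SmoothOfRelativeDimension.smooth n f
  have hnoeth : IsLocallyNoetherian X := LocallyOfFiniteType.isLocallyNoetherian f
  exact dvd_count σ ℓ hℓ hσ X e τ hτ p (by omega)
    (fun x hfin hchar => embDimLT_of_smooth X f n p _ hn x hfin hchar) k hk0 hk

/-- **The main theorem for smooth models.** -/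
theorem totient_le_of_smooth {K : Type} [Field K] (σ : RingAut K) (ℓ : ℕ) (hℓ : ℓ.Prime)
    (hσ : orderOf σ = ℓ) (X : Scheme.{0}) [IsIntegral X] [X.IsSeparated]
    (f : X ⟶ Spec (CommRingCat.of ℤ)) (n : ℕ) [SmoothOfRelativeDimension n f]
    (e : X.functionField ≃+* K) (τ : X ⟶ X)
    (hτ : Spec.map (CommRingCat.ofHom (σ : K →+* K)) ≫ genericMor X e = genericMor X e ≫ τ)
    (p : ℕ) [Fact p.Prime] (hn : n < orderOf (p : ZMod ℓ)) (N : ℕ)
    (hcount : QuasiPoly ℓ p N (fun k => Nat.card (Spec (CommRingCat.of (GaloisField p k)) ⟶ X))) :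
    Nat.totient (orderOf (p : ZMod ℓ)) ≤ N := by
  have hsm : Smooth f := SmoothOfRelativeDimension.smooth n f
  have hnoeth : IsLocallyNoetherian X := LocallyOfFiniteType.isLocallyNoetherian f
  exact totient_le_of_quasiPoly σ ℓ hℓ hσ X e τ hτ p
    (fun x hfin hchar => embDimLT_of_smooth X f n p _ hn x hfin hchar) N hcount

end Pool.Agent.Helper44.CR
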