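import Mathlib
import Pool.Agent.Helper44.CR.Gen

/-!
# Affine models
-/

set_option autoImplicit false

open AlgebraicGeometry CategoryTheory IsLocalRing

namespace Pool.Agent.Helper44.CR

/-- The function field of `Spec R`. -/
theorem exists_functionField_equiv' (R : CommRingCat.{0}) [IsDomain R] (K : Type) [Field K]
    [Algebra R K] [IsFractionRing R K] :
    ∃ e : (Spec R).functionField ≃+* K,
      genericMor (Spec R) e = Spec.map (CommRingCat.ofHom (algebraMap R K)) := by
  let ε : (Spec R).functionField ≃ₐ[R] K :=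
    IsLocalization.algEquiv (nonZeroDivisors R) _ _
  refine ⟨ε.toRingEquiv, ?_⟩
  have h1 : (Spec R).fromSpecStalk (genericPoint (Spec R)) =
      Spec.map ((Scheme.ΓSpecIso R).inv ≫ (Spec R).presheaf.germ ⊤ (genericPoint (Spec R)) trivial) :=
    Spec.fromSpecStalk_eq R _
  unfold genericMor
  rw [h1, ← Spec.map_comp]
  congr 1
  ext b
  exact ε.commutes b

/-- The function field of `Spec B`. -/
theorem exists_functionField_equiv (B : Type) [CommRing B] [IsDomain B] (K : Type) [Field K]
    [Algebra B K] [IsFractionRing B K] :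
    ∃ e : (Spec (CommRingCat.of B)).functionField ≃+* K,
      genericMor (Spec (CommRingCat.of B)) e = Spec.map (CommRingCat.ofHom (algebraMap B K)) :=
  exists_functionField_equiv' (CommRingCat.of B) K

/-- Ring-theoretic form of the divisibility statement. -/
theorem dvd_card_ringHom {B : Type} [CommRing B] [IsDomain B] [IsNoetherianRing B] {K : Type}
    [Field K] [Algebra B K] [IsFractionRing B K] [Algebra.FormallySmooth ℤ B] (σ : RingAut K)
    (ℓ : ℕ) (hℓ : ℓ.Prime)
    (hσ : orderOf σ = ℓ) (s : B →+* B) (hs : ∀ b, algebraMap B K (s b) = σ (algebraMap B K b))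
    (p : ℕ) [Fact p.Prime] (N : ℕ) (hN : N ≤ orderOf (p : ZMod ℓ)) (hord : 0 < orderOf (p : ZMod ℓ))
    (hd : ∀ (q : Ideal B) [q.IsPrime], (maximalIdeal (Localization.AtPrime q)).spanFinrank ≤ N)
    (k : ℕ) (hk0 : 0 < k) (hk : k.Coprime (orderOf (p : ZMod ℓ))) :
    ℓ ∣ Nat.card (B →+* GaloisField p k) := by
  obtain ⟨e, he⟩ := exists_functionField_equiv B K
  have hτ : Spec.map (CommRingCat.ofHom (σ : K →+* K)) ≫ genericMor (Spec (CommRingCat.of B)) e
      = genericMor (Spec (CommRingCat.of B)) e ≫ Spec.map (CommRingCat.ofHom s) := by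
    rw [he, ← Spec.map_comp, ← Spec.map_comp]
    congr 1
    ext b
    exact (hs b).symm
  have hdim : ∀ x : Spec (CommRingCat.of B),
      Finite (ResidueField ((Spec (CommRingCat.of B)).presheaf.stalk x)) →
      CharP (ResidueField ((Spec (CommRingCat.of B)).presheaf.stalk x)) p →
      EmbDimLT (Spec (CommRingCat.of B)) p (orderOf (p : ZMod ℓ)) x := by
    intro x hfin hchar
    right
    let _alg : Algebra B ((Spec (CommRingCat.of B)).presheaf.stalk x) :=
      (StructureSheaf.toStalk (CommRingCat.of B) x).hom.toAlgebra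
    have hloc : IsLocalization.AtPrime ((Spec (CommRingCat.of B)).presheaf.stalk x) x.asIdeal :=
      StructureSheaf.IsLocalization.to_stalk (CommRingCat.of B) x
    constructor
    · exact (finrank_of_isLocalization x.asIdeal _ N (hd x.asIdeal)).trans hN
    · have h1 : Algebra.FormallySmooth B ((Spec (CommRingCat.of B)).presheaf.stalk x) :=
        Algebra.FormallySmooth.of_isLocalization x.asIdeal.primeCompl
      have h2 : Algebra.FormallySmooth ℤ ((Spec (CommRingCat.of B)).presheaf.stalk x) :=
        Algebra.FormallySmooth.comp ℤ B _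
      have hperf : PerfectRing (ResidueField ((Spec (CommRingCat.of B)).presheaf.stalk x)) p :=
        PerfectRing.ofFiniteOfIsReduced _ _
      exact natCast_notMem_sq p
  have h := dvd_count σ ℓ hℓ hσ (Spec (CommRingCat.of B)) e _ hτ p hord hdim k hk0 hk
  have hcard : Nat.card (Spec (CommRingCat.of (GaloisField p k)) ⟶ Spec (CommRingCat.of B)) =
      Nat.card (B →+* GaloisField p k) := by
    apply Nat.card_congr
    exact (Spec.homEquiv).trans
      { toFun := fun g => g.hom
        invFun := fun g => CommRingCat.ofHom g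
        left_inv := fun g => rfl
        right_inv := fun g => rfl }
  rwa [hcard] at h

end Pool.Agent.Helper44.CR
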