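import Mathlib

/-!
# Counting solutions of linear systems over extensions of a finite field
-/

set_option autoImplicit false

open Module

namespace Pool.Agent.Helper44.CR

/-- The number of linear maps with prescribed value `1` at a nonzero vector. -/
theorem card_linearMap_eq_one {k F Q : Type*} [Field k] [Field F] [Algebra k F] [Finite F]
    [AddCommGroup Q] [Module k Q] [Module.Finite k Q] (u : Q) (hu : u ≠ 0) :
    Nat.card {g : Q →ₗ[k] F // g u = 1} = Nat.card F ^ (finrank k Q - 1) := by
  classical
  have hli : LinearIndepOn k id ({u} : Set Q) := by
    rw [linearIndepOn_singleton_iff]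
    exact hu
  let b := Basis.extend hli
  have hmem : u ∈ hli.extend (Set.subset_univ _) := by
    exact hli.subset_extend _ (Set.mem_singleton u)
  let i0 : hli.extend (Set.subset_univ _) := ⟨u, hmem⟩
  have hbi0 : b i0 = u := Basis.extend_apply_self hli i0
  have hfin : Finite (hli.extend (Set.subset_univ _)) := Module.Finite.finite_basis b
  have : Fintype (hli.extend (Set.subset_univ _)) := Fintype.ofFinite _
  have hcard : Fintype.card (hli.extend (Set.subset_univ _)) = finrank k Q :=
    (finrank_eq_card_basis b).symm
  let e : (Q →ₗ[k] F) ≃ (hli.extend (Set.subset_univ _) → F) := (b.constr k).symm.toEquiv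
  have he : ∀ g i, e g i = g (b i) := fun g i => rfl
  have h1 : {g : Q →ₗ[k] F // g u = 1} ≃ {h : hli.extend (Set.subset_univ _) → F // h i0 = 1} :=
    e.subtypeEquiv (fun g => by rw [he, hbi0])
  have h2 : {h : hli.extend (Set.subset_univ _) → F // h i0 = 1} ≃
      ({j : hli.extend (Set.subset_univ _) // j ≠ i0} → F) :=
    { toFun := fun h j => h.1 j
      invFun := fun h => ⟨fun j => if hj : j = i0 then 1 else h ⟨j, hj⟩, by simp⟩
      left_inv := by
        rintro ⟨h, hh⟩
        apply Subtype.ext
        funext j
        by_cases hj : j = i0
        · subst hj; simp [hh]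
        · simp [hj]
      right_inv := by
        intro h
        funext j
        simp [j.2] }
  rw [Nat.card_congr (h1.trans h2), Nat.card_fun, ← hcard]
  congr 1
  rw [Nat.card_eq_fintype_card, Fintype.card_subtype_compl, Fintype.card_subtype_eq]

/-- The linear map attached to a point. -/
def pointMap {k F : Type*} [Field k] [Field F] [Algebra k F] {n : ℕ} (x : Fin n → F) :
    (Option (Fin n) → k) →ₗ[k] F where
  toFun w := algebraMap k F (w none) + ∑ j, algebraMap k F (w (some j)) * x j
  map_add' w w' := by
    simp only [Pi.add_apply, map_add, add_mul, Finset.sum_add_distrib]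
    ring
  map_smul' a w := by
    simp only [Pi.smul_apply, smul_eq_mul, map_mul, RingHom.id_apply, Algebra.smul_def, mul_add,
      Finset.mul_sum]
    congr 1
    refine Finset.sum_congr rfl (fun j _ => by ring)

/-- The number of `F`-points at which all forms in a subspace vanish. -/
theorem card_points_annihilating {k F : Type*} [Field k] [Field F] [Algebra k F] [Finite F]
    {n : ℕ} (U : Submodule k (Option (Fin n) → k)) :
    (Pi.single none 1 ∈ U → Nat.card {x : Fin n → F // ∀ u ∈ U, pointMap (k := k) x u = 0} = 0) ∧
    (Pi.single none 1 ∉ U → Nat.card {x : Fin n → F // ∀ u ∈ U, pointMap (k := k) x u = 0} =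
      Nat.card F ^ (n - finrank k U)) := by
  classical
  have hone : ∀ x : Fin n → F, pointMap (k := k) x (Pi.single none 1) = 1 := by
    intro x
    simp [pointMap]
  constructor
  · intro hmem
    rw [Nat.card_eq_zero]
    left
    constructor
    rintro ⟨x, hx⟩
    have := hx _ hmem
    rw [hone] at this
    exact one_ne_zero this
  · intro hmem
    set u : (Option (Fin n) → k) ⧸ U := U.mkQ (Pi.single none 1) with hu
    have hu0 : u ≠ 0 := by
      rw [hu, Ne, Submodule.mkQ_apply, Submodule.Quotient.mk_eq_zero]
      exact hmem
    have hcount := card_linearMap_eq_one (F := F) (k := k) u hu0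
    have hdim : finrank k ((Option (Fin n) → k) ⧸ U) - 1 = n - finrank k U := by
      rw [Submodule.finrank_quotient]
      simp only [finrank_fintype_fun_eq_card, Fintype.card_option, Fintype.card_fin]
      omega
    rw [hdim] at hcount
    rw [← hcount]
    apply Nat.card_congr
    refine
      { toFun := fun x => ⟨U.liftQ (pointMap (k := k) x.1) (fun u hu => x.2 u hu), ?_⟩
        invFun := fun g => ⟨fun j => g.1 (U.mkQ (Pi.single (some j) 1)), ?_⟩
        left_inv := ?_
        right_inv := ?_ }
    · rw [hu, Submodule.mkQ_apply, Submodule.liftQ_apply]
      exact hone x.1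
    · intro w hw
      have h1 : pointMap (k := k) (fun j => g.1 (U.mkQ (Pi.single (some j) 1))) w =
          g.1 (U.mkQ w) := by
        have hw' : w = (w none) • (Pi.single none 1 : Option (Fin n) → k) +
            ∑ j, w (some j) • (Pi.single (some j) 1 : Option (Fin n) → k) := by
          funext o
          cases o with
          | none => simp [Finset.sum_apply]
          | some i => simp [Finset.sum_apply, Pi.single_apply]
        conv_rhs => rw [hw']
        rw [map_add, map_add, map_sum, map_sum, map_smul, map_smul, ← hu, g.2]
        have hj : ∀ j, g.1 (U.mkQ (w (some j) • (Pi.single (some j) 1 : Option (Fin n) → k))) =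
            algebraMap k F (w (some j)) * g.1 (U.mkQ (Pi.single (some j) 1)) := by
          intro j
          rw [map_smul, map_smul, Algebra.smul_def]
        simp only [hj]
        rw [Algebra.smul_def, mul_one]
        rfl
      rw [h1, Submodule.mkQ_apply, (Submodule.Quotient.mk_eq_zero U).2 hw, map_zero]
    · rintro ⟨x, hx⟩
      apply Subtype.ext
      funext j
      simp [pointMap, Pi.single_apply]
    · rintro ⟨g, hg⟩
      apply Subtype.ext
      apply Submodule.linearMap_qext
      apply LinearMap.pi_ext'
      intro o
      apply LinearMap.ext_ring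
      cases o with
      | none =>
        simp only [LinearMap.comp_apply, LinearMap.single_apply, Submodule.mkQ_apply,
          Submodule.liftQ_apply, hone]
        exact hg.symm
      | some j =>
        simp [pointMap, Pi.single_apply]

end Pool.Agent.Helper44.CR
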