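import Mathlib
import Pool.Agent.Helper44.CR.Gen
import Pool.Agent.Helper44.CR.Lin

/-!
# Hyperplane arrangements have a quasi-polynomial point count
-/

set_option autoImplicit false

open Module MvPolynomial

namespace Pool.Agent.Helper44.CR

theorem eval_of_totalDegree_le_one {F : Type*} [Field F] {n : ℕ} (L : MvPolynomial (Fin n) F)
    (h : L.totalDegree ≤ 1) (y : Fin n → F) :
    eval y L = L.coeff 0 + ∑ j, L.coeff (Finsupp.single j 1) * y j := by
  classical
  rw [MvPolynomial.eval_eq']
  have hsub : L.support ⊆ insert 0 (Finset.univ.image (fun j : Fin n => Finsupp.single j 1)) := by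
    intro d hd
    rw [Finset.mem_insert, Finset.mem_image]
    by_cases hd0 : d = 0
    · left; exact hd0
    · right
      have h1 : ∑ i, d i ≤ 1 := by
        have := (MvPolynomial.le_totalDegree hd).trans h
        rwa [Finsupp.sum_fintype _ _ (fun _ => rfl)] at this
      obtain ⟨j, hj⟩ : ∃ j, d j ≠ 0 := by
        by_contra hcon
        push Not at hcon
        exact hd0 (Finsupp.ext hcon)
      refine ⟨j, Finset.mem_univ _, ?_⟩
      ext i
      rw [Finsupp.single_apply]
      have h2 : d j + ∑ i ∈ Finset.univ.erase j, d i ≤ 1 := by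
        rwa [Finset.add_sum_erase _ _ (Finset.mem_univ j)]
      by_cases hij : j = i
      · subst hij
        rw [if_pos rfl]
        omega
      · rw [if_neg hij]
        have h3 : d i ≤ ∑ i ∈ Finset.univ.erase j, d i :=
          Finset.single_le_sum (f := fun i => d i) (fun _ _ => Nat.zero_le _)
            (Finset.mem_erase.2 ⟨fun h => hij h.symm, Finset.mem_univ i⟩)
        omega
  rw [Finset.sum_subset hsub]
  · rw [Finset.sum_insert, Finset.sum_image]
    · simp only [Finsupp.coe_zero, Pi.zero_apply, pow_zero, Finset.prod_const_one, mul_one]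
      congr 1
      refine Finset.sum_congr rfl (fun j _ => ?_)
      congr 1
      rw [Finset.prod_eq_single j]
      · simp
      · intro i _ hij
        rw [Finsupp.single_eq_of_ne hij, pow_zero]
      · intro hj
        exact absurd (Finset.mem_univ j) hj
    · intro i _ j _ hij
      exact Finsupp.single_left_injective one_ne_zero hij
    · rw [Finset.mem_image]
      rintro ⟨j, _, hj⟩
      have := congrArg (fun d : Fin n →₀ ℕ => d j) hj
      simp at this
  · intro d _ hd
    rw [MvPolynomial.notMem_support_iff.1 hd, zero_mul]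

/-- The coefficients of a polynomial of degree at most one. -/
noncomputable def lcoef {F : Type*} [Field F] {n : ℕ} (L : MvPolynomial (Fin n) F) :
    Option (Fin n) → F
  | none => L.coeff 0
  | some j => L.coeff (Finsupp.single j 1)

theorem lcoef_ne_zero {F : Type*} [Field F] {n : ℕ} (L : MvPolynomial (Fin n) F)
    (h : L.totalDegree ≤ 1) (hL : L ≠ 0) : ∃ o, lcoef L o ≠ 0 := by
  by_contra hcon
  push Not at hcon
  apply hL
  ext d
  rw [coeff_zero]
  by_contra hd
  have h1 : ∑ i, d i ≤ 1 := by
    have := (MvPolynomial.le_totalDegree (MvPolynomial.mem_support_iff.2 hd)).trans h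
    rwa [Finsupp.sum_fintype _ _ (fun _ => rfl)] at this
  by_cases hd0 : d = 0
  · subst hd0
    exact hd (hcon none)
  · obtain ⟨j, hj⟩ : ∃ j, d j ≠ 0 := by
      by_contra hcon
      push Not at hcon
      exact hd0 (Finsupp.ext hcon)
    have h2 : d j + ∑ i ∈ Finset.univ.erase j, d i ≤ 1 := by
      rwa [Finset.add_sum_erase _ _ (Finset.mem_univ j)]
    have hdj : d = Finsupp.single j 1 := by
      ext i
      rw [Finsupp.single_apply]
      by_cases hij : j = i
      · subst hij
        rw [if_pos rfl]
        omega
      · rw [if_neg hij]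
        have h3 : d i ≤ ∑ i ∈ Finset.univ.erase j, d i :=
          Finset.single_le_sum (f := fun i => d i) (fun _ _ => Nat.zero_le _)
            (Finset.mem_erase.2 ⟨fun h => hij h.symm, Finset.mem_univ i⟩)
        omega
    apply hd
    rw [hdj]
    exact hcon (some j)

/-- **Point count of the complement of a hyperplane arrangement.** -/
theorem quasiPoly_of_linear (p : ℕ) [Fact p.Prime] (n : ℕ) (f : MvPolynomial (Fin n) ℤ)
    {Ω : Type} [Field Ω] [Algebra (ZMod p) Ω] [IsAlgClosed Ω] [Algebra.IsAlgebraic (ZMod p) Ω]
    {ι : Type} [Fintype ι] (L : ι → MvPolynomial (Fin n) Ω)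
    (hdeg : ∀ i, (L i).totalDegree ≤ 1) (c : Ω) (hc : c ≠ 0)
    (hprod : ∏ i, L i = C c * map (Int.castRingHom _) f) (hL : ∀ i, L i ≠ 0)
    (ℓ : ℕ) [Fact ℓ.Prime] :
    QuasiPoly ℓ p n
      (fun k => Nat.card {x : Fin n → GaloisField p k // eval₂ (Int.castRingHom _) x f ≠ 0}) := by
  classical
  -- the field of coefficients
  set S : Set Ω := Set.range (fun io : ι × Option (Fin n) => lcoef (L io.1) io.2) with hS
  have hSfin : S.Finite := Set.finite_range _
  let E : IntermediateField (ZMod p) Ω := IntermediateField.adjoin (ZMod p) S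
  have hSfin' : Finite S := hSfin
  have hEfin : FiniteDimensional (ZMod p) E :=
    IntermediateField.finiteDimensional_adjoin (fun x _ => Algebra.IsIntegral.isIntegral x)
  let b := Module.finBasis (ZMod p) E
  let a : ι → Option (Fin n) → E := fun i o =>
    ⟨lcoef (L i) o, IntermediateField.subset_adjoin _ _ ⟨(i, o), rfl⟩⟩
  let w : ι → Fin (finrank (ZMod p) E) → (Option (Fin n) → ZMod p) :=
    fun i t o => b.repr (a i o) t
  -- vanishing of the forms at a point of a field of coprime degree
  have hvan : ∀ k : ℕ, 0 < k → k.Coprime (finrank (ZMod p) E) →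
      ∃ θ : GaloisField p k →+* Ω, ∀ (x : Fin n → GaloisField p k) (i : ι),
        eval (fun j => θ (x j)) (L i) = 0 ↔ ∀ t, pointMap (k := ZMod p) x (w i t) = 0 := by
    intro k hk0 hk
    let θ : GaloisField p k →ₐ[ZMod p] Ω := IsAlgClosed.lift
    let _algθ : Algebra (GaloisField p k) Ω := θ.toRingHom.toAlgebra
    have hst : IsScalarTower (ZMod p) (GaloisField p k) Ω :=
      IsScalarTower.of_algebraMap_eq (fun r => (θ.commutes r).symm)
    have hdisj : E.LinearDisjoint (GaloisField p k) := by
      apply IntermediateField.LinearDisjoint.of_finrank_coprime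
      rw [GaloisField.finrank p hk0.ne']
      exact hk.symm
    have hli : LinearIndependent (GaloisField p k) (E.val ∘ b) :=
      hdisj.linearIndependent_left b.linearIndependent
    refine ⟨θ.toRingHom, fun x i => ?_⟩
    have hrep : ∀ o, lcoef (L i) o = ∑ t, θ (algebraMap (ZMod p) _ (w i t o)) * (b t : Ω) := by
      intro o
      have h1 : a i o = ∑ t, b.repr (a i o) t • b t := (b.sum_repr (a i o)).symm
      have h2 : lcoef (L i) o = ((a i o : E) : Ω) := rfl
      rw [h2, h1]
      simp only [IntermediateField.coe_sum, IntermediateField.coe_smul]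
      refine Finset.sum_congr rfl (fun t _ => ?_)
      rw [Algebra.smul_def, θ.commutes]
    have hev : eval (fun j => θ (x j)) (L i) =
        ∑ t, (pointMap (k := ZMod p) x (w i t)) • (E.val ∘ b) t := by
      rw [eval_of_totalDegree_le_one _ (hdeg i)]
      have e1 : (L i).coeff 0 = lcoef (L i) none := rfl
      have e2 : ∀ j, (L i).coeff (Finsupp.single j 1) = lcoef (L i) (some j) := fun j => rfl
      rw [e1, hrep none]
      simp only [e2, hrep, Finset.sum_mul]
      rw [Finset.sum_comm, ← Finset.sum_add_distrib]
      refine Finset.sum_congr rfl (fun t _ => ?_)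
      rw [Algebra.smul_def]
      have e3 : algebraMap (GaloisField p k) Ω (pointMap (k := ZMod p) x (w i t)) =
          θ (pointMap (k := ZMod p) x (w i t)) := rfl
      rw [e3]
      change _ = θ (_ + ∑ j, _) * (b t : Ω)
      rw [map_add, map_sum, add_mul, Finset.sum_mul]
      congr 1
      refine Finset.sum_congr rfl (fun j _ => ?_)
      rw [map_mul]
      ring
    rw [show (fun j => θ.toRingHom (x j)) = (fun j => θ (x j)) from rfl, hev]
    constructor
    · intro h t
      exact (Fintype.linearIndependent_iff.1 hli) _ h t
    · intro h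
      refine Finset.sum_eq_zero (fun t _ => ?_)
      rw [h t, zero_smul]
  -- the subspaces
  let W : Finset ι → Submodule (ZMod p) (Option (Fin n) → ZMod p) := fun s =>
    Submodule.span (ZMod p) {v | ∃ i ∈ s, ∃ t, w i t = v}
  let G : Finset ι → Polynomial (ZMod ℓ) := fun s =>
    if Pi.single none 1 ∈ W s then 0 else
      (Polynomial.X : Polynomial (ZMod ℓ)) ^ (n - finrank (ZMod p) (W s))
  let P : Polynomial (ZMod ℓ) := ∑ s ∈ (Finset.univ : Finset ι).powerset,
    Polynomial.C ((-1) ^ s.card) * G s
  have hWempty : W ∅ = ⊥ := by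
    simp only [W]
    rw [Submodule.span_eq_bot]
    rintro v ⟨i, hi, _⟩
    exact absurd hi (Finset.notMem_empty i)
  have hWne : ∀ s : Finset ι, s.Nonempty → W s ≠ ⊥ := by
    rintro s ⟨i, hi⟩ hbot
    obtain ⟨o, ho⟩ := lcoef_ne_zero (L i) (hdeg i) (hL i)
    have ha : a i o ≠ 0 := by
      intro h
      apply ho
      exact congrArg (fun z : E => (z : Ω)) h
    have hr : b.repr (a i o) ≠ 0 := by
      rw [Ne, LinearEquiv.map_eq_zero_iff]
      exact ha
    obtain ⟨t, ht⟩ : ∃ t, b.repr (a i o) t ≠ 0 := by
      by_contra hcon
      push Not at hcon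
      exact hr (Finsupp.ext hcon)
    have hmem : w i t ∈ W s := Submodule.subset_span ⟨i, hi, t, rfl⟩
    rw [hbot, Submodule.mem_bot] at hmem
    exact ht (congrFun hmem o)
  have hGcoeff : ∀ s : Finset ι, s.Nonempty → (G s).coeff n = 0 := by
    intro s hs
    simp only [G]
    split_ifs with hmem
    · simp
    · rw [Polynomial.coeff_X_pow, if_neg]
      have h1 : 0 < finrank (ZMod p) (W s) := by
        rw [Module.finrank_pos_iff]
        exact (Submodule.nontrivial_iff_ne_bot).2 (hWne s hs)
      have h2 : finrank (ZMod p) (W s) < finrank (ZMod p) (Option (Fin n) → ZMod p) := by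
        apply Submodule.finrank_lt
        intro htop
        rw [htop] at hmem
        exact hmem trivial
      rw [finrank_fintype_fun_eq_card, Fintype.card_option, Fintype.card_fin] at h2
      omega
  have hG0 : G ∅ = Polynomial.X ^ n := by
    simp only [G]
    rw [if_neg, hWempty, finrank_bot, Nat.sub_zero]
    rw [hWempty, Submodule.mem_bot]
    intro h
    have := congrFun h none
    simp at this
  refine ⟨finrank (ZMod p) E, P, finrank_pos, ?_, ?_, ?_⟩
  · intro hP
    have h1 : P.coeff n = 1 := by
      simp only [P, Polynomial.finsetSum_coeff, Polynomial.coeff_C_mul]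
      rw [Finset.sum_eq_single ∅]
      · rw [hG0]
        simp
      · intro s _ hs
        rw [hGcoeff s (Finset.nonempty_iff_ne_empty.2 hs), mul_zero]
      · intro h
        exact absurd (Finset.empty_mem_powerset _) h
    rw [hP, Polynomial.coeff_zero] at h1
    exact zero_ne_one h1
  · apply Polynomial.natDegree_sum_le_of_forall_le
    intro s _
    refine (Polynomial.natDegree_C_mul_le _ _).trans ?_
    simp only [G]
    split_ifs
    · simp
    · rw [Polynomial.natDegree_X_pow]
      exact Nat.sub_le _ _
  · intro k hk0 hk
    obtain ⟨θ, hθ⟩ := hvan k hk0 hk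
    have hF : Nat.card (GaloisField p k) = p ^ k := GaloisField.card p k hk0.ne'
    have : Fintype (GaloisField p k) := Fintype.ofFinite _
    let A : ι → Finset (Fin n → GaloisField p k) := fun i =>
      Finset.univ.filter (fun x => eval (fun j => θ (x j)) (L i) = 0)
    have hmap : ∀ x : Fin n → GaloisField p k,
        c * θ (eval₂ (Int.castRingHom _) x f) = ∏ i, eval (fun j => θ (x j)) (L i) := by
      intro x
      have h1 := congrArg (eval (fun j => θ (x j))) hprod
      rw [map_prod, map_mul, eval_C, eval_map] at h1
      rw [h1]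
      congr 1
      rw [← coe_eval₂Hom, ← RingHom.comp_apply, ← coe_eval₂Hom]
      congr 1
      apply MvPolynomial.ringHom_ext
      · intro r; simp
      · intro j; simp
    have hset : ∀ x : Fin n → GaloisField p k, eval₂ (Int.castRingHom _) x f ≠ 0 ↔
        x ∈ Finset.univ.inf (fun i => (A i)ᶜ) := by
      intro x
      rw [Finset.mem_inf]
      have h1 : eval₂ (Int.castRingHom _) x f ≠ 0 ↔
          ∏ i, eval (fun j => θ (x j)) (L i) ≠ 0 := by
        rw [← hmap x, mul_ne_zero_iff]
        constructor
        · intro h
          exact ⟨hc, (map_ne_zero θ).2 h⟩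
        · rintro ⟨_, h⟩
          exact (map_ne_zero θ).1 h
      rw [h1, Finset.prod_ne_zero_iff]
      simp [A]
    have hcard1 : Nat.card {x : Fin n → GaloisField p k // eval₂ (Int.castRingHom _) x f ≠ 0} =
        (Finset.univ.inf (fun i => (A i)ᶜ)).card := by
      rw [Nat.card_congr (Equiv.subtypeEquivRight hset), Nat.card_eq_fintype_card,
        Fintype.card_coe]
    beta_reduce
    rw [hcard1]
    have hie := Finset.inclusion_exclusion_card_inf_compl (Finset.univ : Finset ι) A
    have hinf : ∀ s : Finset ι, ((s.inf A).card : ZMod ℓ) =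
        (G s).eval ((p : ZMod ℓ) ^ k) := by
      intro s
      have h1 : (s.inf A).card = Nat.card {x : Fin n → GaloisField p k //
          ∀ u ∈ W s, pointMap (k := ZMod p) x u = 0} := by
        rw [← Fintype.card_coe, ← Nat.card_eq_fintype_card]
        apply Nat.card_congr
        refine Equiv.subtypeEquivRight ?_
        intro x
        rw [Finset.mem_inf]
        constructor
        · intro h u hu
          have hle : W s ≤ LinearMap.ker (pointMap (k := ZMod p) x) := by
            apply Submodule.span_le.2
            rintro v ⟨i, hi, t, rfl⟩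
            have h2 := h i hi
            rw [Finset.mem_filter] at h2
            exact (hθ x i).1 h2.2 t
          exact hle hu
        · intro h i hi
          rw [Finset.mem_filter]
          refine ⟨Finset.mem_univ _, (hθ x i).2 (fun t => ?_)⟩
          exact h _ (Submodule.subset_span ⟨i, hi, t, rfl⟩)
      obtain ⟨hin, hnin⟩ := card_points_annihilating (F := GaloisField p k) (W s)
      simp only [G]
      split_ifs with hmem
      · rw [h1, hin hmem]
        simp
      · rw [h1, hnin hmem, hF, Polynomial.eval_pow, Polynomial.eval_X]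
        push_cast
        rfl
    have hcast := congrArg (fun z : ℤ => (z : ZMod ℓ)) hie
    simp only [Int.cast_natCast, Int.cast_sum, Int.cast_mul, Int.cast_pow, Int.cast_neg,
      Int.cast_one, hinf] at hcast
    rw [hcast]
    simp only [P, Polynomial.eval_finsetSum, Polynomial.eval_mul, Polynomial.eval_C]

end Pool.Agent.Helper44.CR
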