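import Mathlib
import Pool.Agent.Helper44.CR.Aff

/-!
# Spreading out an automorphism of `ℚ[X₁, …, Xₙ, 1 / f]` and counting points
-/

set_option autoImplicit false

open AlgebraicGeometry CategoryTheory IsLocalRing MvPolynomial

namespace Pool.Agent.Helper44.CR

/-- Embedding dimension of the local rings of `ℤ[X₁, …, Xₙ, 1 / g]`. -/
theorem spanFinrank_away (n : ℕ) (g : MvPolynomial (Fin n) ℤ) (B : Type) [CommRing B]
    [Algebra (MvPolynomial (Fin n) ℤ) B] [IsLocalization.Away g B] (q : Ideal B) [q.IsPrime] :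
    (maximalIdeal (Localization.AtPrime q)).spanFinrank ≤ n + 1 := by
  have het : Algebra.Etale (MvPolynomial (Fin n) ℤ) B := Algebra.Etale.of_isLocalizationAway g
  refine spanFinrank_le_of_etale (C := MvPolynomial (Fin n) ℤ) (n + 1) ?_ q
  rw [MvPolynomial.ringKrullDim_of_isNoetherianRing, Nat.card_eq_fintype_card, Fintype.card_fin,
    IsPrincipalIdealRing.ringKrullDim_eq_one ℤ Int.not_isField, add_comm]
  norm_cast

/-- `ℤ[X₁, …, Xₙ, 1 / g]` is formally smooth over `ℤ`. -/
theorem formallySmooth_away (n : ℕ) (g : MvPolynomial (Fin n) ℤ) (B : Type) [CommRing B]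
    [Algebra (MvPolynomial (Fin n) ℤ) B] [IsLocalization.Away g B] :
    Algebra.FormallySmooth ℤ B := by
  have h1 : Algebra.FormallySmooth (MvPolynomial (Fin n) ℤ) B :=
    Algebra.FormallySmooth.of_isLocalization (Submonoid.powers g)
  have h2 : IsScalarTower ℤ (MvPolynomial (Fin n) ℤ) B := by
    apply IsScalarTower.of_algebraMap_eq
    intro r
    simp
  exact Algebra.FormallySmooth.comp ℤ (MvPolynomial (Fin n) ℤ) B

/-- The points of `ℤ[X₁, …, Xₙ, 1 / g]` in a field. -/
theorem card_away (n : ℕ) (g : MvPolynomial (Fin n) ℤ) (B : Type) [CommRing B]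
    [Algebra (MvPolynomial (Fin n) ℤ) B] [IsLocalization.Away g B] (F : Type) [Field F] :
    Nat.card (B →+* F) = Nat.card {x : Fin n → F // eval₂ (Int.castRingHom F) x g ≠ 0} := by
  apply Nat.card_congr
  have key : ∀ φ : B →+* F, φ.comp (algebraMap (MvPolynomial (Fin n) ℤ) B) =
      eval₂Hom (Int.castRingHom F) (fun i => φ (algebraMap (MvPolynomial (Fin n) ℤ) B (X i))) := by
    intro φ
    apply MvPolynomial.ringHom_ext
    · intro r
      simp
    · intro i
      simp
  refine
    { toFun := fun φ => ⟨fun i => φ (algebraMap (MvPolynomial (Fin n) ℤ) B (X i)), ?_⟩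
      invFun := fun x => IsLocalization.Away.lift (S := B) g
        (g := eval₂Hom (Int.castRingHom F) x.1) (isUnit_iff_ne_zero.2 x.2)
      left_inv := ?_
      right_inv := ?_ }
  · have h1 : eval₂ (Int.castRingHom F)
        (fun i => φ (algebraMap (MvPolynomial (Fin n) ℤ) B (X i))) g = φ (algebraMap _ B g) := by
      have := congrArg (fun ψ => ψ g) (key φ)
      exact this.symm
    rw [h1]
    have h2 : IsUnit (φ (algebraMap (MvPolynomial (Fin n) ℤ) B g)) :=
      (IsLocalization.Away.algebraMap_isUnit g).map φ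
    exact h2.ne_zero
  · intro φ
    apply IsLocalization.ringHom_ext (Submonoid.powers g)
    rw [key φ]
    ext x
    · simp
    · simp
  · intro x
    apply Subtype.ext
    funext i
    simp [IsLocalization.Away.lift_eq]

/-- An element of `K` lies in the image of `R[1/g]` if it has a suitable denominator. -/
theorem exists_of_mul_pow {R B K : Type} [CommRing R] [CommRing B] [Field K] [Algebra R B]
    [Algebra R K] [Algebra B K] [IsScalarTower R B K] (g : R) [IsLocalization.Away g B]
    (hg : algebraMap R K g ≠ 0) (x : K) (j : ℕ) (h : R)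
    (hx : x * algebraMap R K g ^ j = algebraMap R K h) : ∃ b : B, algebraMap B K b = x := by
  refine ⟨IsLocalization.mk' B h (⟨g ^ j, ⟨j, rfl⟩⟩ : Submonoid.powers g), ?_⟩
  have h1 : algebraMap B K (IsLocalization.mk' B h (⟨g ^ j, ⟨j, rfl⟩⟩ : Submonoid.powers g))
      * algebraMap R K (g ^ j) = algebraMap R K h := by
    rw [IsScalarTower.algebraMap_apply R B K (g ^ j), ← map_mul, IsScalarTower.algebraMap_apply R B K h]
    congr 1
    exact IsLocalization.mk'_spec B h (⟨g ^ j, ⟨j, rfl⟩⟩ : Submonoid.powers g)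
  rw [map_pow, ← hx] at h1
  exact mul_right_cancel₀ (pow_ne_zero j hg) h1

variable {n : ℕ} {K : Type} [Field K] [Algebra (MvPolynomial (Fin n) ℤ) K]
  [IsFractionRing (MvPolynomial (Fin n) ℤ) K]

/-- **Counting points for an automorphism of `ℚ[X₁, …, Xₙ, 1 / f]`.** -/
theorem dvd_card_of_regular (σ : RingAut K) (ℓ : ℕ) (hℓ : ℓ.Prime) (hσ : orderOf σ = ℓ)
    (f : MvPolynomial (Fin n) ℤ) (hf : f ≠ 0)
    (hX : ∀ i, ∃ (g : MvPolynomial (Fin n) ℤ) (a m : ℕ), 0 < m ∧
      σ (algebraMap (MvPolynomial (Fin n) ℤ) K (X i)) * (m * algebraMap (MvPolynomial (Fin n) ℤ) K f ^ a) = algebraMap (MvPolynomial (Fin n) ℤ) K g)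
    (hinv : ∃ (g : MvPolynomial (Fin n) ℤ) (a m : ℕ), 0 < m ∧
      (σ (algebraMap (MvPolynomial (Fin n) ℤ) K f))⁻¹ * (m * algebraMap (MvPolynomial (Fin n) ℤ) K f ^ a) = algebraMap (MvPolynomial (Fin n) ℤ) K g) :
    ∃ m : ℕ, 0 < m ∧ ∀ (p : ℕ) [Fact p.Prime], ¬ p ∣ m → n < orderOf (p : ZMod ℓ) →
      ∀ k : ℕ, 0 < k → k.Coprime (orderOf (p : ZMod ℓ)) →
        ℓ ∣ Nat.card {x : Fin n → GaloisField p k // eval₂ (Int.castRingHom _) x f ≠ 0} := by
  classical
  choose G a mm hmm hG using hX
  obtain ⟨g0, a0, m0, hm0, hg0⟩ := hinv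
  set m : ℕ := m0 * ∏ i, mm i with hm
  have hmpos : 0 < m := Nat.mul_pos hm0 (Finset.prod_pos (fun i _ => hmm i))
  refine ⟨m, hmpos, ?_⟩
  intro p hp hpm hd k hk0 hk
  have hinjR : Function.Injective (algebraMap (MvPolynomial (Fin n) ℤ) K) :=
    IsFractionRing.injective _ _
  have hfK : algebraMap (MvPolynomial (Fin n) ℤ) K f ≠ 0 := by
    rw [Ne, map_eq_zero_iff _ hinjR]
    exact hf
  have hmR : ((m : ℕ) : MvPolynomial (Fin n) ℤ) ≠ 0 := Nat.cast_ne_zero.2 hmpos.ne'
  set g : MvPolynomial (Fin n) ℤ := (m : MvPolynomial (Fin n) ℤ) * f with hgdef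
  have hg : g ≠ 0 := mul_ne_zero hmR hf
  have hgK : algebraMap (MvPolynomial (Fin n) ℤ) K g ≠ 0 := by
    rw [Ne, map_eq_zero_iff _ hinjR]
    exact hg
  let B := Localization.Away g
  have hdomB : IsDomain B := IsLocalization.isDomain_localization
    (Submonoid.powers_le.2 (mem_nonZeroDivisors_of_ne_zero hg))
  let ιB : B →+* K := IsLocalization.Away.lift (S := B) g
    (g := algebraMap (MvPolynomial (Fin n) ℤ) K) (isUnit_iff_ne_zero.2 hgK)
  let _alg : Algebra B K := ιB.toAlgebra
  have hst : IsScalarTower (MvPolynomial (Fin n) ℤ) B K := by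
    apply IsScalarTower.of_algebraMap_eq
    intro x
    exact (IsLocalization.Away.lift_eq g (isUnit_iff_ne_zero.2 hgK) x).symm
  have hfrac : IsFractionRing B K :=
    IsFractionRing.isFractionRing_of_isDomain_of_isLocalization (Submonoid.powers g) B K
  have hinjB : Function.Injective (algebraMap B K) := IsFractionRing.injective _ _
  -- elements with denominators dividing `m`
  have hrange : ∀ (x : K) (g' : MvPolynomial (Fin n) ℤ) (j m' : ℕ), m' ∣ m →
      x * (m' * algebraMap (MvPolynomial (Fin n) ℤ) K f ^ j) = algebraMap (MvPolynomial (Fin n) ℤ) K g' → ∃ b : B, algebraMap B K b = x := by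
    rintro x g' j m' ⟨c, hc⟩ hx
    refine exists_of_mul_pow g hgK x (j + 1) (g' * (m : MvPolynomial (Fin n) ℤ) ^ j *
      (c : MvPolynomial (Fin n) ℤ) * f) ?_
    have hmc : (m : K) = m' * c := by rw [hc]; push_cast; ring
    simp only [hgdef, map_mul, map_pow, map_natCast]
    rw [← hx, pow_succ, mul_pow, hmc]
    ring
  have hb : ∀ i, ∃ b : B, algebraMap B K b = σ (algebraMap (MvPolynomial (Fin n) ℤ) K (X i)) := by
    intro i
    refine hrange _ (G i) (a i) (mm i) ?_ (hG i)
    rw [hm]
    exact Dvd.dvd.mul_left (Finset.dvd_prod_of_mem mm (Finset.mem_univ i)) m0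
  choose b hb using hb
  obtain ⟨c, hc⟩ : ∃ c : B, algebraMap B K c = (σ (algebraMap (MvPolynomial (Fin n) ℤ) K f))⁻¹ :=
    hrange _ g0 a0 m0 (Dvd.intro _ rfl) hg0
  obtain ⟨d, hdd⟩ : ∃ d : B, algebraMap B K d = ((m : K))⁻¹ := by
    refine hrange _ 1 0 m dvd_rfl ?_
    have : (m : K) ≠ 0 := by
      intro h0
      apply hmR
      apply hinjR
      rw [map_natCast, map_zero]
      exact h0
    rw [pow_zero, mul_one, inv_mul_cancel₀ this, map_one]
  -- the homomorphism on `R`
  let s0 : MvPolynomial (Fin n) ℤ →+* B := eval₂Hom (Int.castRingHom B) b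
  have hs0 : ∀ x, algebraMap B K (s0 x) = σ (algebraMap (MvPolynomial (Fin n) ℤ) K x) := by
    intro x
    have : (algebraMap B K).comp s0 = (σ : K →+* K).comp (algebraMap (MvPolynomial (Fin n) ℤ) K) := by
      apply MvPolynomial.ringHom_ext
      · intro r
        simp [s0]
      · intro i
        simp [s0, hb]
    exact congrArg (fun ψ : MvPolynomial (Fin n) ℤ →+* K => ψ x) this
  have hunit : IsUnit (s0 g) := by
    refine IsUnit.of_mul_eq_one (c * d) ?_
    apply hinjB
    rw [map_mul, hs0, map_mul (algebraMap B K) c d, hc, hdd, map_one, hgdef, map_mul, map_mul,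
      map_natCast, map_natCast]
    have h1 : σ (algebraMap (MvPolynomial (Fin n) ℤ) K f) ≠ 0 := by
      rw [Ne, map_eq_zero_iff _ σ.injective]
      exact hfK
    have h2 : (m : K) ≠ 0 := by
      intro h0
      apply hmR
      apply hinjR
      rw [map_natCast, map_zero]
      exact h0
    field_simp
  let s : B →+* B := IsLocalization.Away.lift (S := B) g hunit
  have hs : ∀ y : B, algebraMap B K (s y) = σ (algebraMap B K y) := by
    intro y
    have : (algebraMap B K).comp s = (σ : K →+* K).comp (algebraMap B K) := by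
      apply IsLocalization.ringHom_ext (Submonoid.powers g)
      apply MvPolynomial.ringHom_ext
      · intro r
        simp
      · intro i
        change algebraMap B K (s (algebraMap (MvPolynomial (Fin n) ℤ) B (X i))) =
          σ (algebraMap B K (algebraMap (MvPolynomial (Fin n) ℤ) B (X i)))
        rw [← IsScalarTower.algebraMap_apply, ← hs0]
        congr 1
        exact IsLocalization.Away.lift_eq g hunit _
    exact congrArg (fun ψ : B →+* K => ψ y) this
  have hfs := formallySmooth_away n g B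
  have h := dvd_card_ringHom σ ℓ hℓ hσ s hs p (n + 1) hd (by omega)
    (fun q hq => spanFinrank_away n g B q) k hk0 hk
  rw [card_away n g B (GaloisField p k)] at h
  have hcard : Nat.card {x : Fin n → GaloisField p k // eval₂ (Int.castRingHom _) x g ≠ 0} =
      Nat.card {x : Fin n → GaloisField p k // eval₂ (Int.castRingHom _) x f ≠ 0} := by
    apply Nat.card_congr
    refine Equiv.subtypeEquivRight ?_
    intro x
    have hmF : ((m : ℕ) : GaloisField p k) ≠ 0 := by
      rw [Ne, CharP.cast_eq_zero_iff (GaloisField p k) p m]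
      exact hpm
    rw [hgdef, eval₂_mul]
    have : eval₂ (Int.castRingHom (GaloisField p k)) x ((m : ℕ) : MvPolynomial (Fin n) ℤ)
        = ((m : ℕ) : GaloisField p k) := by
      change eval₂Hom (Int.castRingHom (GaloisField p k)) x ((m : ℕ) : MvPolynomial (Fin n) ℤ) = _
      rw [map_natCast]
    rw [this]
    constructor
    · intro h1 h2
      exact h1 (by rw [h2, mul_zero])
    · intro h1
      exact mul_ne_zero hmF h1
  rwa [hcard] at h

end Pool.Agent.Helper44.CR
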