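import Mathlib
import Pool.Agent.Helper44.CR.Spr

/-!
# The rings `ℚ[X₁, …, Xₙ, 1 / f]` and automorphisms of finite order
-/

set_option autoImplicit false

open MvPolynomial

namespace Pool.Agent.Helper44.CR

variable {n : ℕ} {K : Type} [Field K] [Algebra (MvPolynomial (Fin n) ℤ) K]
  [IsFractionRing (MvPolynomial (Fin n) ℤ) K]

/-- The ring `ℚ[X₁, …, Xₙ, 1 / f]`, `f` with integral coefficients. -/
def denRing (K : Type) [Field K] [Algebra (MvPolynomial (Fin n) ℤ) K]
    (f : MvPolynomial (Fin n) ℤ) : Subring K where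
  carrier := {x | ∃ (g : MvPolynomial (Fin n) ℤ) (a m : ℕ), 0 < m ∧
    x * (m * algebraMap (MvPolynomial (Fin n) ℤ) K f ^ a) =
      algebraMap (MvPolynomial (Fin n) ℤ) K g}
  mul_mem' := by
    rintro x y ⟨g, a, m, hm, hx⟩ ⟨g', a', m', hm', hy⟩
    refine ⟨g * g', a + a', m * m', Nat.mul_pos hm hm', ?_⟩
    rw [map_mul, ← hx, ← hy]
    push_cast
    ring
  one_mem' := ⟨1, 0, 1, one_pos, by simp⟩
  add_mem' := by
    rintro x y ⟨g, a, m, hm, hx⟩ ⟨g', a', m', hm', hy⟩
    refine ⟨g * m' * f ^ a' + g' * m * f ^ a, a + a', m * m', Nat.mul_pos hm hm', ?_⟩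
    simp only [map_add, map_mul, map_pow, map_natCast]
    rw [← hx, ← hy]
    push_cast
    ring
  zero_mem' := ⟨0, 0, 1, one_pos, by simp⟩
  neg_mem' := by
    rintro x ⟨g, a, m, hm, hx⟩
    refine ⟨-g, a, m, hm, ?_⟩
    rw [map_neg, ← hx]
    ring

omit [IsFractionRing (MvPolynomial (Fin n) ℤ) K] in
theorem algebraMap_mem_denRing (f g : MvPolynomial (Fin n) ℤ) :
    algebraMap (MvPolynomial (Fin n) ℤ) K g ∈ denRing K f := ⟨g, 0, 1, one_pos, by simp⟩

omit [IsFractionRing (MvPolynomial (Fin n) ℤ) K] in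
theorem denRing_mono (f h : MvPolynomial (Fin n) ℤ) : denRing K f ≤ denRing K (f * h) := by
  rintro x ⟨g, a, m, hm, hx⟩
  refine ⟨g * h ^ a, a, m, hm, ?_⟩
  simp only [map_mul, map_pow, mul_pow]
  rw [← hx]
  ring

theorem natCast_inv_mem_denRing (f : MvPolynomial (Fin n) ℤ) (m : ℕ) (hm : 0 < m) :
    ((m : K))⁻¹ ∈ denRing K f := by
  refine ⟨1, 0, m, hm, ?_⟩
  have hinj : Function.Injective (algebraMap (MvPolynomial (Fin n) ℤ) K) :=
    IsFractionRing.injective _ _
  have : (m : K) ≠ 0 := by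
    intro h0
    have h1 : ((m : ℕ) : MvPolynomial (Fin n) ℤ) ≠ 0 := Nat.cast_ne_zero.2 hm.ne'
    apply h1
    apply hinj
    rw [map_natCast, map_zero]
    exact h0
  rw [pow_zero, mul_one, inv_mul_cancel₀ this, map_one]

theorem inv_mem_denRing (f g h : MvPolynomial (Fin n) ℤ) (hf : f ≠ 0) (hgh : g * h = f) :
    (algebraMap (MvPolynomial (Fin n) ℤ) K g)⁻¹ ∈ denRing K f := by
  refine ⟨h, 1, 1, one_pos, ?_⟩
  have hinj : Function.Injective (algebraMap (MvPolynomial (Fin n) ℤ) K) :=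
    IsFractionRing.injective _ _
  have hg : algebraMap (MvPolynomial (Fin n) ℤ) K g ≠ 0 := by
    rw [Ne, map_eq_zero_iff _ hinj]
    rintro rfl
    exact hf (by rw [← hgh, zero_mul])
  rw [← hgh, map_mul, Nat.cast_one, one_mul, pow_one, inv_mul_cancel_left₀ hg]

theorem exists_denRing (x : K) : ∃ h : MvPolynomial (Fin n) ℤ, h ≠ 0 ∧ x ∈ denRing K h := by
  obtain ⟨g, h, hh, rfl⟩ := IsFractionRing.div_surjective (A := MvPolynomial (Fin n) ℤ) x
  have hh0 : h ≠ 0 := nonZeroDivisors.ne_zero hh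
  refine ⟨h, hh0, ?_⟩
  rw [div_eq_mul_inv]
  exact Subring.mul_mem _ (algebraMap_mem_denRing h g) (inv_mem_denRing h h 1 hh0 (mul_one h))

/-- Images of polynomials under an automorphism. -/
theorem map_mem_denRing (τ : K →+* K) (h : MvPolynomial (Fin n) ℤ)
    (hX : ∀ i, τ (algebraMap (MvPolynomial (Fin n) ℤ) K (X i)) ∈ denRing K h)
    (g : MvPolynomial (Fin n) ℤ) : τ (algebraMap (MvPolynomial (Fin n) ℤ) K g) ∈ denRing K h := by
  induction g using MvPolynomial.induction_on with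
  | C a =>
    have : (C a : MvPolynomial (Fin n) ℤ) = (a : MvPolynomial (Fin n) ℤ) := by simp
    rw [this, map_intCast, map_intCast]
    exact intCast_mem _ _
  | add p q hp hq =>
    rw [map_add, map_add]
    exact Subring.add_mem _ hp hq
  | mul_X p i hp =>
    rw [map_mul, map_mul]
    exact Subring.mul_mem _ hp (hX i)

/-- **Every automorphism of finite order is regular on the complement of a hypersurface.** -/
theorem exists_regular (σ : RingAut K) (ℓ : ℕ) (hℓ : 1 < ℓ) (hσ : σ ^ ℓ = 1) :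
    ∃ f : MvPolynomial (Fin n) ℤ, f ≠ 0 ∧
      (∀ i, σ (algebraMap (MvPolynomial (Fin n) ℤ) K (X i)) ∈ denRing K f) ∧
      (σ (algebraMap (MvPolynomial (Fin n) ℤ) K f))⁻¹ ∈ denRing K f := by
  classical
  have hinj : Function.Injective (algebraMap (MvPolynomial (Fin n) ℤ) K) :=
    IsFractionRing.injective _ _
  -- a common denominator of all `σ ^ j X_i`
  choose D hD0 hD using fun ij : ℕ × Fin n =>
    exists_denRing (n := n) ((σ ^ ij.1 : RingAut K) (algebraMap (MvPolynomial (Fin n) ℤ) K (X ij.2)))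
  set h : MvPolynomial (Fin n) ℤ := ∏ ij ∈ Finset.range ℓ ×ˢ (Finset.univ : Finset (Fin n)), D ij
    with hh
  have hh0 : h ≠ 0 := Finset.prod_ne_zero_iff.2 (fun ij _ => hD0 ij)
  have hX : ∀ j < ℓ, ∀ i, (σ ^ j : RingAut K) (algebraMap (MvPolynomial (Fin n) ℤ) K (X i)) ∈
      denRing K h := by
    intro j hj i
    have hmem : (j, i) ∈ Finset.range ℓ ×ˢ (Finset.univ : Finset (Fin n)) :=
      Finset.mem_product.2 ⟨Finset.mem_range.2 hj, Finset.mem_univ _⟩
    rw [hh, ← Finset.mul_prod_erase _ _ hmem]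
    exact denRing_mono _ _ (hD (j, i))
  have hR : ∀ j < ℓ, ∀ g, (σ ^ j : RingAut K) (algebraMap (MvPolynomial (Fin n) ℤ) K g) ∈
      denRing K h := fun j hj g =>
    map_mem_denRing ((σ ^ j : RingAut K) : K →+* K) h (hX j hj) g
  -- the norm of `h`
  set N : K := ∏ j ∈ Finset.range ℓ, (σ ^ j : RingAut K) (algebraMap (MvPolynomial (Fin n) ℤ) K h)
    with hN
  have hhK : algebraMap (MvPolynomial (Fin n) ℤ) K h ≠ 0 := by
    rw [Ne, map_eq_zero_iff _ hinj]
    exact hh0
  have hfac : ∀ j, (σ ^ j : RingAut K) (algebraMap (MvPolynomial (Fin n) ℤ) K h) ≠ 0 := by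
    intro j
    rw [Ne, map_eq_zero_iff _ (σ ^ j : RingAut K).injective]
    exact hhK
  have hN0 : N ≠ 0 := Finset.prod_ne_zero_iff.2 (fun j _ => hfac j)
  have hNmem : N ∈ denRing K h := Subring.prod_mem _ (fun j hj => hR j (Finset.mem_range.1 hj) h)
  have hσN : σ N = N := by
    rw [hN, map_prod]
    have h1 : ∀ j, σ ((σ ^ j : RingAut K) (algebraMap (MvPolynomial (Fin n) ℤ) K h)) =
        (σ ^ (j + 1) : RingAut K) (algebraMap (MvPolynomial (Fin n) ℤ) K h) := by
      intro j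
      rw [pow_succ']
      rfl
    simp only [h1]
    have h2 := Finset.prod_range_succ' (fun j => (σ ^ j : RingAut K)
      (algebraMap (MvPolynomial (Fin n) ℤ) K h)) ℓ
    have h3 := Finset.prod_range_succ (fun j => (σ ^ j : RingAut K)
      (algebraMap (MvPolynomial (Fin n) ℤ) K h)) ℓ
    rw [h2, hσ, pow_zero] at h3
    exact mul_right_cancel₀ hhK h3
  obtain ⟨u, a, m, hm, hu⟩ := hNmem
  have hm0 : (m : K) ≠ 0 := by
    intro h0
    have h1 : ((m : ℕ) : MvPolynomial (Fin n) ℤ) ≠ 0 := Nat.cast_ne_zero.2 hm.ne'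
    apply h1
    apply hinj
    rw [map_natCast, map_zero]
    exact h0
  have hu0 : u ≠ 0 := by
    rintro rfl
    rw [map_zero] at hu
    exact (mul_ne_zero hN0 (mul_ne_zero hm0 (pow_ne_zero a hhK))) hu
  have hf0 : h * u ≠ 0 := mul_ne_zero hh0 hu0
  have hle : denRing K h ≤ denRing K (h * u) := denRing_mono h u
  refine ⟨h * u, hf0, ?_, ?_⟩
  · intro i
    have := hX 1 hℓ i
    rw [pow_one] at this
    exact hle this
  · -- the inverse of `N`
    have hNinv : N⁻¹ ∈ denRing K (h * u) := by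
      have e : N⁻¹ = (m : K) * algebraMap (MvPolynomial (Fin n) ℤ) K h ^ a *
          (algebraMap (MvPolynomial (Fin n) ℤ) K u)⁻¹ := by
        rw [← hu]
        field_simp
      rw [e]
      refine Subring.mul_mem _ (Subring.mul_mem _ (natCast_mem _ _) ?_)
        (inv_mem_denRing _ u h hf0 (mul_comm u h))
      exact Subring.pow_mem _ (algebraMap_mem_denRing _ _) _
    -- the inverse of `σ h`
    have hσh : (σ (algebraMap (MvPolynomial (Fin n) ℤ) K h))⁻¹ ∈ denRing K (h * u) := by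
      have h1 : N = (∏ j ∈ (Finset.range ℓ).erase 1,
          (σ ^ j : RingAut K) (algebraMap (MvPolynomial (Fin n) ℤ) K h)) *
          σ (algebraMap (MvPolynomial (Fin n) ℤ) K h) := by
        rw [hN, ← Finset.prod_erase_mul _ _ (Finset.mem_range.2 hℓ), pow_one]
      have h2 : (σ (algebraMap (MvPolynomial (Fin n) ℤ) K h))⁻¹ =
          (∏ j ∈ (Finset.range ℓ).erase 1,
          (σ ^ j : RingAut K) (algebraMap (MvPolynomial (Fin n) ℤ) K h)) * N⁻¹ := by
        have hs1 : σ (algebraMap (MvPolynomial (Fin n) ℤ) K h) ≠ 0 := by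
          have := hfac 1
          rwa [pow_one] at this
        rw [eq_mul_inv_iff_mul_eq₀ hN0, h1, mul_comm, mul_assoc, mul_inv_cancel₀ hs1, mul_one]
      rw [h2]
      refine Subring.mul_mem _ (Subring.prod_mem _ (fun j hj => hle (hR j ?_ h))) hNinv
      exact Finset.mem_range.1 (Finset.mem_of_mem_erase hj)
    have e : (σ (algebraMap (MvPolynomial (Fin n) ℤ) K (h * u)))⁻¹ =
        (σ (algebraMap (MvPolynomial (Fin n) ℤ) K h))⁻¹ * (N⁻¹ * ((m : K)⁻¹ *
          (σ (algebraMap (MvPolynomial (Fin n) ℤ) K h))⁻¹ ^ a)) := by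
      rw [map_mul, map_mul, ← hu, map_mul, map_mul, hσN, map_natCast, map_pow, mul_inv, mul_inv,
        mul_inv, inv_pow]
    rw [e]
    exact Subring.mul_mem _ hσh (Subring.mul_mem _ hNinv (Subring.mul_mem _
      (natCast_inv_mem_denRing _ m hm) (Subring.pow_mem _ hσh _)))

end Pool.Agent.Helper44.CR
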