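import Mathlib

/-!
# Reduction modulo `p` of a product of linear polynomials with algebraic coefficients
-/

set_option autoImplicit false

open MvPolynomial

namespace Pool.Agent.Helper44.CR

/-- A ring homomorphism from the algebraic integers to an algebraically closed field of
characteristic `p`. -/
theorem exists_reduction (p : ℕ) [Fact p.Prime] (Ω : Type) [Field Ω] [IsAlgClosed Ω]
    [Algebra (ZMod p) Ω] :
    Nonempty (integralClosure ℤ (AlgebraicClosure ℚ) →+* Ω) := by
  set O := integralClosure ℤ (AlgebraicClosure ℚ) with hO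
  have hmax : (Ideal.span {(p : ℤ)}).IsMaximal :=
    PrincipalIdealRing.isMaximal_of_irreducible
      (Nat.prime_iff_prime_int.1 (Fact.out : p.Prime)).irreducible
  have hinj : Function.Injective (algebraMap ℤ O) := by
    intro a b hab
    have h1 := congrArg (fun z : O => (z : AlgebraicClosure ℚ)) hab
    simpa using h1
  obtain ⟨Q, hQ, hcomap⟩ := Ideal.exists_ideal_over_maximal_of_isIntegral (S := O)
    (Ideal.span {(p : ℤ)}) (by rw [(RingHom.injective_iff_ker_eq_bot _).1 hinj]; exact bot_le)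
  let _fld : Field (O ⧸ Q) := Ideal.Quotient.field Q
  have hp : ((p : ℕ) : O ⧸ Q) = 0 := by
    have : (p : ℤ) ∈ Q.comap (algebraMap ℤ O) := by
      rw [hcomap]
      exact Ideal.mem_span_singleton_self _
    rw [Ideal.mem_comap] at this
    have h2 := Ideal.Quotient.eq_zero_iff_mem.2 this
    simpa using h2
  have hchar : CharP (O ⧸ Q) p := by
    obtain ⟨c, hc⟩ := CharP.exists (O ⧸ Q)
    have hcd : c ∣ p := (CharP.cast_eq_zero_iff (O ⧸ Q) c p).1 hp
    rcases (Nat.dvd_prime (Fact.out : p.Prime)).1 hcd with h | h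
    · subst h
      exact (CharP.false_of_nontrivial_of_char_one (R := O ⧸ Q)).elim
    · rwa [← h]
  let _alg : Algebra (ZMod p) (O ⧸ Q) := ZMod.algebra _ p
  have hst : IsScalarTower ℤ (ZMod p) (O ⧸ Q) := by
    apply IsScalarTower.of_algebraMap_eq
    intro r
    simp
  have halg : Algebra.IsAlgebraic (ZMod p) (O ⧸ Q) := by
    constructor
    intro x
    obtain ⟨a, rfl⟩ := Ideal.Quotient.mk_surjective x
    have h1 : IsIntegral ℤ a := Algebra.IsIntegral.isIntegral a
    have h2 : IsIntegral ℤ (Ideal.Quotient.mk Q a) :=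
      h1.map (Ideal.Quotient.mk Q).toIntAlgHom
    exact (h2.tower_top (A := ZMod p)).isAlgebraic
  exact ⟨(IsAlgClosed.lift : (O ⧸ Q) →ₐ[ZMod p] Ω).toRingHom.comp (Ideal.Quotient.mk Q)⟩

/-- Clearing denominators. -/
theorem exists_integral_poly {n : ℕ} (L : MvPolynomial (Fin n) (AlgebraicClosure ℚ)) :
    ∃ (N : ℕ) (L' : MvPolynomial (Fin n) (integralClosure ℤ (AlgebraicClosure ℚ))), 0 < N ∧
      map (algebraMap _ (AlgebraicClosure ℚ)) L' = C (N : AlgebraicClosure ℚ) * L := by
  induction L using MvPolynomial.induction_on with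
  | C a =>
    have halg : IsAlgebraic ℤ a := by
      have h0 := (AlgebraicClosure.isAlgebraic ℚ).isAlgebraic a
      exact (IsFractionRing.isAlgebraic_iff ℤ ℚ (AlgebraicClosure ℚ)).2 h0
    obtain ⟨y, hy0, hy⟩ := halg.exists_integral_multiple
    have hy2 : IsIntegral ℤ ((y.natAbs : ℤ) • a) := by
      rcases Int.natAbs_eq y with h | h
      · rw [← h]
        exact hy
      · have : ((y.natAbs : ℤ)) = -y := by omega
        rw [this, neg_smul]
        exact hy.neg
    refine ⟨y.natAbs, C ⟨(y.natAbs : ℤ) • a, hy2⟩, Int.natAbs_pos.2 hy0, ?_⟩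
    rw [map_C, ← C_mul]
    congr 1
    change (y.natAbs : ℤ) • a = _
    rw [zsmul_eq_mul, Int.cast_natCast]
  | add p q hp hq =>
    obtain ⟨N, L', hN, h⟩ := hp
    obtain ⟨N₂, L₂', hN₂, h₂⟩ := hq
    refine ⟨N * N₂, L' * (N₂ : MvPolynomial _ _) + L₂' * (N : MvPolynomial _ _),
      Nat.mul_pos hN hN₂, ?_⟩
    simp only [map_add, map_mul, h, h₂, map_natCast]
    push_cast
    ring
  | mul_X p i hp =>
    obtain ⟨N, L', hN, h⟩ := hp
    refine ⟨N, L' * X i, hN, ?_⟩
    rw [map_mul, h, map_X, mul_assoc]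

/-- Reduction of a factorization into polynomials of degree at most one. -/
theorem exists_linear_factors {n : ℕ} (f : MvPolynomial (Fin n) ℤ) (hf : f ≠ 0)
    (s : List (MvPolynomial (Fin n) (AlgebraicClosure ℚ))) (hs : ∀ L ∈ s, L.totalDegree ≤ 1)
    (c : ℕ) (hc : 0 < c)
    (hprod : C (c : AlgebraicClosure ℚ) * s.prod = map (Int.castRingHom _) f) :
    ∃ D : ℕ, 0 < D ∧ ∀ (p : ℕ) [Fact p.Prime], ¬ p ∣ D →
      ∀ (Ω : Type) [Field Ω] [IsAlgClosed Ω] [Algebra (ZMod p) Ω],
      ∃ (L : Fin s.length → MvPolynomial (Fin n) Ω) (b : Ω), (∀ i, (L i).totalDegree ≤ 1) ∧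
        b ≠ 0 ∧ ∏ i, L i = C b * map (Int.castRingHom Ω) f ∧ ∀ i, L i ≠ 0 := by
  classical
  choose N L' hN hL' using fun i : Fin s.length => exists_integral_poly (s.get i)
  obtain ⟨m, hm⟩ : ∃ m, f.coeff m ≠ 0 := MvPolynomial.ne_zero_iff.1 hf
  have hinj : Function.Injective
      (algebraMap (integralClosure ℤ (AlgebraicClosure ℚ)) (AlgebraicClosure ℚ)) :=
    Subtype.val_injective
  refine ⟨c * (∏ i, N i) * (f.coeff m).natAbs, Nat.mul_pos (Nat.mul_pos hc
    (Finset.prod_pos fun i _ => hN i)) (Int.natAbs_pos.2 hm), ?_⟩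
  intro p hp hpD Ω _ _ _
  have hpc : ¬ p ∣ c := fun h => hpD ((h.mul_right _).mul_right _)
  have hpN : ¬ p ∣ ∏ i, N i := fun h => hpD ((h.mul_left _).mul_right _)
  have hpm : ¬ p ∣ (f.coeff m).natAbs := fun h => hpD (h.mul_left _)
  have hcharΩ : CharP Ω p :=
    charP_of_injective_algebraMap (algebraMap (ZMod p) Ω).injective p
  obtain ⟨π⟩ := exists_reduction p Ω
  -- the identity over the algebraic integers
  have hO : (c : MvPolynomial (Fin n) (integralClosure ℤ (AlgebraicClosure ℚ))) * ∏ i, L' i =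
      ((∏ i, N i : ℕ) : MvPolynomial (Fin n) (integralClosure ℤ (AlgebraicClosure ℚ))) *
        map (Int.castRingHom _) f := by
    apply map_injective _ hinj
    rw [map_mul, map_natCast, map_prod, map_mul, map_natCast, map_map]
    simp only [hL']
    rw [Finset.prod_mul_distrib]
    have e1 : ∏ i, (C (N i : AlgebraicClosure ℚ) : MvPolynomial (Fin n) (AlgebraicClosure ℚ)) =
        ((∏ i, N i : ℕ) : MvPolynomial (Fin n) (AlgebraicClosure ℚ)) := by
      push_cast
      refine Finset.prod_congr rfl (fun i _ => by simp)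
    have e2 : ∏ i, s.get i = s.prod := by
      rw [← List.prod_ofFn, List.ofFn_get]
    have e3 : (algebraMap (integralClosure ℤ (AlgebraicClosure ℚ)) (AlgebraicClosure ℚ)).comp
        (Int.castRingHom _) = Int.castRingHom (AlgebraicClosure ℚ) := RingHom.ext_int _ _
    rw [e1, e2, e3, ← hprod]
    have e4 : (C (c : AlgebraicClosure ℚ) : MvPolynomial (Fin n) (AlgebraicClosure ℚ)) = c := by
      simp
    rw [e4]
    ring
  have hΩ : (c : MvPolynomial (Fin n) Ω) * ∏ i, map π (L' i) =
      ((∏ i, N i : ℕ) : MvPolynomial (Fin n) Ω) * map (Int.castRingHom Ω) f := by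
    have h1 := congrArg (map π) hO
    rw [map_mul, map_natCast, map_prod, map_mul, map_natCast, map_map] at h1
    have e3 : π.comp (Int.castRingHom _) = Int.castRingHom Ω := RingHom.ext_int _ _
    rw [e3] at h1
    exact h1
  have hcΩ : (c : Ω) ≠ 0 := by
    rw [Ne, CharP.cast_eq_zero_iff Ω p]
    exact hpc
  have hNΩ : ((∏ i, N i : ℕ) : Ω) ≠ 0 := by
    rw [Ne, CharP.cast_eq_zero_iff Ω p]
    exact hpN
  have hfΩ : map (Int.castRingHom Ω) f ≠ 0 := by
    intro h
    have h1 := congrArg (coeff m) h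
    rw [coeff_map, coeff_zero] at h1
    change ((f.coeff m : ℤ) : Ω) = 0 at h1
    rw [CharP.intCast_eq_zero_iff Ω p, Int.natCast_dvd] at h1
    exact hpm h1
  have hprodΩ : ∏ i, map π (L' i) = C (((∏ i, N i : ℕ) : Ω) / c) * map (Int.castRingHom Ω) f := by
    have hc' : (C (c : Ω) : MvPolynomial (Fin n) Ω) ≠ 0 := by
      rw [Ne, C_eq_zero]
      exact hcΩ
    apply mul_left_cancel₀ hc'
    have e1 : (C (c : Ω) : MvPolynomial (Fin n) Ω) = c := by simp
    have e2 : (C ((∏ i, N i : ℕ) : Ω) : MvPolynomial (Fin n) Ω) = ((∏ i, N i : ℕ) :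
        MvPolynomial (Fin n) Ω) := by simp
    rw [← mul_assoc, ← C_mul, mul_div_cancel₀ _ hcΩ, e2, e1]
    exact hΩ
  have hb : ((∏ i, N i : ℕ) : Ω) / c ≠ 0 := div_ne_zero hNΩ hcΩ
  refine ⟨fun i => map π (L' i), ((∏ i, N i : ℕ) : Ω) / c, ?_, hb, hprodΩ, ?_⟩
  · intro i
    have h1 : (L' i).totalDegree ≤ 1 := by
      have h2 : (map (algebraMap _ (AlgebraicClosure ℚ)) (L' i)).totalDegree ≤ 1 := by
        rw [hL' i]
        refine (totalDegree_mul _ _).trans ?_
        rw [totalDegree_C, zero_add]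
        exact hs _ (List.get_mem s i)
      rwa [totalDegree, support_map_of_injective _ hinj] at h2
    exact (Finset.sup_mono (support_map_subset π (L' i))).trans h1
  · have hne : ∏ i, map π (L' i) ≠ 0 := by
      rw [hprodΩ]
      refine mul_ne_zero ?_ hfΩ
      rw [Ne, C_eq_zero]
      exact hb
    exact fun i => (Finset.prod_ne_zero_iff.1 hne) i (Finset.mem_univ i)

end Pool.Agent.Helper44.CR
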