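import Mathlib
import Pool.Agent.Helper44.CR.Den
import Pool.Agent.Helper44.CR.Arr
import Pool.Agent.Helper44.CR.Red

/-!
# Automorphisms of the field of rational functions over `ℚ`
-/

set_option autoImplicit false

open MvPolynomial

namespace Pool.Agent.Helper44.CR

/-- The subring `ℚ[X₁, …, Xₙ, 1 / f]` of the field of rational functions `ℚ(X₁, …, Xₙ)`. -/
def affineRing {n : ℕ} (f : MvPolynomial (Fin n) ℚ) :
    Set (FractionRing (MvPolynomial (Fin n) ℚ)) :=
  {x | ∃ (g : MvPolynomial (Fin n) ℚ) (a : ℕ),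
    x * algebraMap _ (FractionRing (MvPolynomial (Fin n) ℚ)) f ^ a = algebraMap _ _ g}

/-- `ℤ[X₁, …, Xₙ] → ℚ(X₁, …, Xₙ)`. -/
noncomputable def intHom (n : ℕ) :
    MvPolynomial (Fin n) ℤ →+* FractionRing (MvPolynomial (Fin n) ℚ) :=
  (algebraMap (MvPolynomial (Fin n) ℚ) (FractionRing (MvPolynomial (Fin n) ℚ))).comp
    (map (Int.castRingHom ℚ))

theorem intHom_injective (n : ℕ) : Function.Injective (intHom n) := by
  have h1 : Function.Injective (map (σ := Fin n) (Int.castRingHom ℚ)) :=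
    map_injective _ (fun a b h => Int.cast_injective h)
  intro a b h
  exact h1 (IsFractionRing.injective (MvPolynomial (Fin n) ℚ)
    (FractionRing (MvPolynomial (Fin n) ℚ)) h)

/-- Clearing denominators. -/
theorem exists_int_poly {n : ℕ} (g : MvPolynomial (Fin n) ℚ) :
    ∃ (m : ℕ) (g' : MvPolynomial (Fin n) ℤ), 0 < m ∧
      map (Int.castRingHom ℚ) g' = C (m : ℚ) * g := by
  induction g using MvPolynomial.induction_on with
  | C a =>
    refine ⟨a.den, C a.num, a.den_pos, ?_⟩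
    rw [map_C, ← C_mul]
    congr 1
    change (a.num : ℚ) = _
    rw [mul_comm]
    exact (Rat.mul_den_eq_num a).symm
  | add p q hp hq =>
    obtain ⟨m, p', hm, h⟩ := hp
    obtain ⟨m₂, q', hm₂, h₂⟩ := hq
    refine ⟨m * m₂, p' * (m₂ : MvPolynomial _ _) + q' * (m : MvPolynomial _ _),
      Nat.mul_pos hm hm₂, ?_⟩
    simp only [map_add, map_mul, h, h₂, map_natCast]
    push_cast
    ring
  | mul_X p i hp =>
    obtain ⟨m, p', hm, h⟩ := hp
    refine ⟨m, p' * X i, hm, ?_⟩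
    rw [map_mul, h, map_X, mul_assoc]

theorem isFractionRing_int (n : ℕ) :
    @IsFractionRing (MvPolynomial (Fin n) ℤ) _ (FractionRing (MvPolynomial (Fin n) ℚ)) _
      (intHom n).toAlgebra := by
  let _alg : Algebra (MvPolynomial (Fin n) ℤ) (FractionRing (MvPolynomial (Fin n) ℚ)) :=
    (intHom n).toAlgebra
  have hfaith : FaithfulSMul (MvPolynomial (Fin n) ℤ) (FractionRing (MvPolynomial (Fin n) ℚ)) :=
    (faithfulSMul_iff_algebraMap_injective _ _).2 (intHom_injective n)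
  refine IsFractionRing.of_field _ _ (fun z => ?_)
  obtain ⟨g, h, hh, rfl⟩ := IsFractionRing.div_surjective (A := MvPolynomial (Fin n) ℚ) z
  obtain ⟨m, g', hm, hg⟩ := exists_int_poly g
  obtain ⟨m₂, h', hm₂, hh'⟩ := exists_int_poly h
  refine ⟨g' * (m₂ : MvPolynomial _ _), h' * (m : MvPolynomial _ _), ?_⟩
  change _ = intHom n _ / intHom n _
  have hne : algebraMap (MvPolynomial (Fin n) ℚ) (FractionRing (MvPolynomial (Fin n) ℚ)) h ≠ 0 := by
    rw [Ne, map_eq_zero_iff _ (IsFractionRing.injective _ _)]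
    exact nonZeroDivisors.ne_zero hh
  have hm0 : (m : FractionRing (MvPolynomial (Fin n) ℚ)) ≠ 0 := Nat.cast_ne_zero.2 hm.ne'
  have hm₂0 : (m₂ : FractionRing (MvPolynomial (Fin n) ℚ)) ≠ 0 := Nat.cast_ne_zero.2 hm₂.ne'
  have e1 : intHom n g' = m * algebraMap _ _ g := by
    rw [intHom, RingHom.comp_apply, hg, map_mul]
    simp
  have e2 : intHom n h' = m₂ * algebraMap _ _ h := by
    rw [intHom, RingHom.comp_apply, hh', map_mul]
    simp
  rw [map_mul, map_mul, map_natCast, map_natCast, e1, e2]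
  field_simp

theorem mem_affineRing_iff {n : ℕ} (f : MvPolynomial (Fin n) ℚ) (c : ℕ) (hc : 0 < c)
    (f₀ : MvPolynomial (Fin n) ℤ) (hf₀ : map (Int.castRingHom ℚ) f₀ = C (c : ℚ) * f)
    (x : FractionRing (MvPolynomial (Fin n) ℚ)) :
    x ∈ affineRing f ↔
      ∃ (g : MvPolynomial (Fin n) ℤ) (a m : ℕ), 0 < m ∧
        x * (m * intHom n f₀ ^ a) = intHom n g := by
  have e1 : intHom n f₀ = c * algebraMap _ _ f := by
    rw [intHom, RingHom.comp_apply, hf₀, map_mul]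
    simp
  constructor
  · rintro ⟨g, a, hx⟩
    obtain ⟨m, g', hm, hg⟩ := exists_int_poly g
    refine ⟨g' * (c : MvPolynomial _ _) ^ a, a, m, hm, ?_⟩
    have e2 : intHom n g' = m * algebraMap _ _ g := by
      rw [intHom, RingHom.comp_apply, hg, map_mul]
      simp
    rw [map_mul, map_pow, map_natCast, e2, ← hx, e1]
    ring
  · rintro ⟨g, a, m, hm, hx⟩
    refine ⟨C ((m * c ^ a : ℚ)⁻¹) * map (Int.castRingHom ℚ) g, a, ?_⟩
    have hm0 : (m : FractionRing (MvPolynomial (Fin n) ℚ)) ≠ 0 := Nat.cast_ne_zero.2 hm.ne'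
    have hc0 : (c : FractionRing (MvPolynomial (Fin n) ℚ)) ≠ 0 := Nat.cast_ne_zero.2 hc.ne'
    have hne : (m * c ^ a : ℚ) ≠ 0 := by positivity
    have e3 : algebraMap (MvPolynomial (Fin n) ℚ) (FractionRing (MvPolynomial (Fin n) ℚ))
        (C ((m * c ^ a : ℚ)⁻¹)) * (m * c ^ a) = 1 := by
      have : (m * c ^ a : FractionRing (MvPolynomial (Fin n) ℚ)) =
          algebraMap (MvPolynomial (Fin n) ℚ) _ (C (m * c ^ a : ℚ)) := by simp
      rw [this, ← map_mul, ← C_mul, inv_mul_cancel₀ hne, C_1, map_one]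
    have e4 : algebraMap (MvPolynomial (Fin n) ℚ) (FractionRing (MvPolynomial (Fin n) ℚ))
        (map (Int.castRingHom ℚ) g) = intHom n g := rfl
    rw [map_mul, e4, ← hx, e1]
    calc x * algebraMap _ (FractionRing (MvPolynomial (Fin n) ℚ)) f ^ a
        = (algebraMap (MvPolynomial (Fin n) ℚ) (FractionRing (MvPolynomial (Fin n) ℚ))
          (C ((m * c ^ a : ℚ)⁻¹)) * (m * c ^ a)) *
            (x * algebraMap _ (FractionRing (MvPolynomial (Fin n) ℚ)) f ^ a) := by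
          rw [e3, one_mul]
      _ = _ := by ring

/-- `σ` maps `ℚ[X₁, …, Xₙ, 1 / f]` into itself. -/
def Preserves {n : ℕ} (σ : RingAut (FractionRing (MvPolynomial (Fin n) ℚ)))
    (f : MvPolynomial (Fin n) ℚ) : Prop :=
  ∀ x ∈ affineRing f, σ x ∈ affineRing f

/-- **Congruences for point counts.** -/
theorem congruence {n : ℕ} (σ : RingAut (FractionRing (MvPolynomial (Fin n) ℚ))) (ℓ : ℕ)
    (hℓ : ℓ.Prime) (hσ : orderOf σ = ℓ) (f : MvPolynomial (Fin n) ℚ) (c : ℕ) (hc : 0 < c)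
    (f₀ : MvPolynomial (Fin n) ℤ) (hf₀ : map (Int.castRingHom ℚ) f₀ = C (c : ℚ) * f)
    (hf : f ≠ 0) (hreg : Preserves σ f) :
    ∃ m : ℕ, 0 < m ∧ ∀ (p : ℕ) [Fact p.Prime], ¬ p ∣ m → n < orderOf (p : ZMod ℓ) →
      ∀ k : ℕ, 0 < k → k.Coprime (orderOf (p : ZMod ℓ)) →
        ℓ ∣ Nat.card {x : Fin n → GaloisField p k // eval₂ (Int.castRingHom _) x f₀ ≠ 0} := by
  let _alg : Algebra (MvPolynomial (Fin n) ℤ) (FractionRing (MvPolynomial (Fin n) ℚ)) :=
    (intHom n).toAlgebra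
  have hfrac : IsFractionRing (MvPolynomial (Fin n) ℤ) (FractionRing (MvPolynomial (Fin n) ℚ)) :=
    isFractionRing_int n
  have hf₀0 : f₀ ≠ 0 := by
    rintro rfl
    rw [map_zero] at hf₀
    have : C (c : ℚ) * f ≠ 0 := by
      refine mul_ne_zero ?_ hf
      rw [Ne, C_eq_zero]
      exact Nat.cast_ne_zero.2 hc.ne'
    exact this hf₀.symm
  have hmem := mem_affineRing_iff f c hc f₀ hf₀
  refine dvd_card_of_regular σ ℓ hℓ hσ f₀ hf₀0 ?_ ?_
  · intro i
    have h1 : intHom n (X i) ∈ affineRing f := by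
      refine ⟨X i, 0, ?_⟩
      rw [pow_zero, mul_one, intHom, RingHom.comp_apply, map_X]
    exact (hmem _).1 (hreg _ h1)
  · have hfK : algebraMap (MvPolynomial (Fin n) ℚ) (FractionRing (MvPolynomial (Fin n) ℚ)) f ≠ 0 := by
      rw [Ne, map_eq_zero_iff _ (IsFractionRing.injective _ _)]
      exact hf
    have e1 : intHom n f₀ = c * algebraMap _ _ f := by
      rw [intHom, RingHom.comp_apply, hf₀, map_mul]
      simp
    have h1 : (intHom n f₀)⁻¹ ∈ affineRing f := by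
      refine ⟨C ((c : ℚ)⁻¹), 1, ?_⟩
      have hc0 : (c : FractionRing (MvPolynomial (Fin n) ℚ)) ≠ 0 := Nat.cast_ne_zero.2 hc.ne'
      rw [e1, pow_one, mul_inv, mul_assoc, inv_mul_cancel₀ hfK, mul_one]
      have h2 : (c : FractionRing (MvPolynomial (Fin n) ℚ)) * algebraMap (MvPolynomial (Fin n) ℚ) _
          (C ((c : ℚ)⁻¹)) = 1 := by
        have : (c : FractionRing (MvPolynomial (Fin n) ℚ)) =
            algebraMap (MvPolynomial (Fin n) ℚ) _ (C (c : ℚ)) := by simp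
        rw [this, ← map_mul, ← C_mul, mul_inv_cancel₀ (Nat.cast_ne_zero.2 hc.ne'), C_1, map_one]
      exact inv_eq_of_mul_eq_one_right h2
    have h2 := (hmem _).1 (hreg _ h1)
    rw [map_inv₀] at h2
    exact h2

/-- Every automorphism of finite order preserves some ring `ℚ[X₁, …, Xₙ, 1 / f]`. -/
theorem exists_preserves {n : ℕ} (σ : RingAut (FractionRing (MvPolynomial (Fin n) ℚ)))
    (hσ : 1 < orderOf σ) :
    ∃ f : MvPolynomial (Fin n) ℤ, f ≠ 0 ∧ Preserves σ (map (Int.castRingHom ℚ) f) := by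
  let _alg : Algebra (MvPolynomial (Fin n) ℤ) (FractionRing (MvPolynomial (Fin n) ℚ)) :=
    (intHom n).toAlgebra
  have hfrac : IsFractionRing (MvPolynomial (Fin n) ℤ) (FractionRing (MvPolynomial (Fin n) ℚ)) :=
    isFractionRing_int n
  obtain ⟨f, hf, hX, hinv⟩ := exists_regular (n := n) σ (orderOf σ) hσ (pow_orderOf_eq_one σ)
  refine ⟨f, hf, ?_⟩
  have hmem := mem_affineRing_iff (map (Int.castRingHom ℚ) f) 1 one_pos f (by simp)
  intro x hx
  rw [hmem] at hx ⊢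
  change σ x ∈ denRing (FractionRing (MvPolynomial (Fin n) ℚ)) f
  obtain ⟨g, a, m, hm, hx⟩ := hx
  have hg := map_mem_denRing ((σ : RingAut _) : FractionRing (MvPolynomial (Fin n) ℚ) →+* _) f hX g
  have hfK : intHom n f ≠ 0 := by
    rw [Ne, map_eq_zero_iff _ (intHom_injective n)]
    exact hf
  have hm0 : (m : FractionRing (MvPolynomial (Fin n) ℚ)) ≠ 0 := Nat.cast_ne_zero.2 hm.ne'
  have hσf : σ (intHom n f) ≠ 0 := by
    rw [Ne, map_eq_zero_iff _ σ.injective]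
    exact hfK
  have e : σ x = σ (intHom n g) * ((m : FractionRing (MvPolynomial (Fin n) ℚ))⁻¹ *
      (σ (intHom n f))⁻¹ ^ a) := by
    have h3 : σ (intHom n f) ^ a ≠ 0 := pow_ne_zero a hσf
    rw [← hx, map_mul, map_mul, map_pow, map_natCast, inv_pow]
    field_simp
  rw [e]
  exact Subring.mul_mem _ hg (Subring.mul_mem _ (natCast_inv_mem_denRing f m hm)
    (Subring.pow_mem _ hinv a))

/-- Primes which are primitive roots modulo `ℓ`. -/
theorem exists_prime_primitive (ℓ : ℕ) [Fact ℓ.Prime] (D : ℕ) (hD : 0 < D) :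
    ∃ p : ℕ, p.Prime ∧ ¬ p ∣ D ∧ orderOf (p : ZMod ℓ) = ℓ - 1 := by
  obtain ⟨g, hg⟩ := IsCyclic.exists_generator (α := (ZMod ℓ)ˣ)
  have hord : orderOf g = ℓ - 1 := by
    rw [orderOf_eq_card_of_forall_mem_zpowers hg, Nat.card_eq_fintype_card,
      ZMod.card_units]
  obtain ⟨p, hpD, hp, hpg⟩ := Nat.forall_exists_prime_gt_and_eq_mod (g.isUnit) D
  refine ⟨p, hp, ?_, ?_⟩
  · intro h
    exact absurd (Nat.le_of_dvd hD h) (not_le.2 hpD)
  · rw [hpg, orderOf_units, hord]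

/-- **The arrangement theorem.** -/
theorem arrangement {n : ℕ} (f : MvPolynomial (Fin n) ℚ) (hf : f ≠ 0)
    (s : List (MvPolynomial (Fin n) (AlgebraicClosure ℚ))) (hs : ∀ L ∈ s, L.totalDegree ≤ 1)
    (hprod : s.prod = map (algebraMap ℚ (AlgebraicClosure ℚ)) f)
    (σ : RingAut (FractionRing (MvPolynomial (Fin n) ℚ))) (hσ : (orderOf σ).Prime)
    (hreg : Preserves σ f) : Nat.totient (orderOf σ - 1) ≤ n := by
  set ℓ := orderOf σ with hℓ
  have : Fact ℓ.Prime := ⟨hσ⟩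
  by_contra hcon
  have hn : n < ℓ - 1 := lt_of_lt_of_le (not_le.1 hcon) (Nat.totient_le _)
  obtain ⟨c, f₀, hc, hf₀⟩ := exists_int_poly f
  obtain ⟨m, hm, hdvd⟩ := congruence σ ℓ hσ hℓ.symm f c hc f₀ hf₀ hf hreg
  have hf₀0 : f₀ ≠ 0 := by
    rintro rfl
    rw [map_zero] at hf₀
    have : C (c : ℚ) * f ≠ 0 := by
      refine mul_ne_zero ?_ hf
      rw [Ne, C_eq_zero]
      exact Nat.cast_ne_zero.2 hc.ne'
    exact this hf₀.symm
  have hprod₀ : C (c : AlgebraicClosure ℚ) * s.prod = map (Int.castRingHom _) f₀ := by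
    have e3 : (algebraMap ℚ (AlgebraicClosure ℚ)).comp (Int.castRingHom ℚ) =
        Int.castRingHom (AlgebraicClosure ℚ) := RingHom.ext_int _ _
    rw [hprod, ← e3, ← map_map, hf₀, map_mul, map_C]
    congr 2
  obtain ⟨D, hD, hred⟩ := exists_linear_factors f₀ hf₀0 s hs c hc hprod₀
  obtain ⟨p, hp, hpmD, hord⟩ := exists_prime_primitive ℓ (m * D) (Nat.mul_pos hm hD)
  have : Fact p.Prime := ⟨hp⟩
  obtain ⟨L, b, hL1, hb, hLprod, hL0⟩ := hred p (fun h => hpmD (h.mul_left _))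
    (AlgebraicClosure (ZMod p))
  obtain ⟨M, P, hM, hP, hdeg, hN⟩ := quasiPoly_of_linear p n f₀ L hL1 b hb hLprod hL0 ℓ
  apply hcon
  have hp0 : (p : ZMod ℓ) ≠ 0 := by
    intro hp0
    rw [hp0, orderOf_eq_zero_iff'.2] at hord
    · omega
    · intro m hm h
      rw [zero_pow hm.ne'] at h
      exact zero_ne_one h
  rw [← hord]
  refine (totient_le_natDegree ℓ (p : ZMod ℓ) hp0 M hM P hP ?_).trans hdeg
  intro k hk0 hkM hkd
  rw [← hN k hk0 hkM]
  exact (ZMod.natCast_eq_zero_iff _ _).2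
    (hdvd p (fun h => hpmD (h.mul_right _)) (by rw [hord]; exact hn) k hk0 hkd)

end Pool.Agent.Helper44.CR
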