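import Mathlib
import Pool.Agent.Helper44.CR.Gen

/-!
# Point counts with further Frobenius eigenvalues
-/

set_option autoImplicit false

open AlgebraicGeometry CategoryTheory IsLocalRing

namespace Pool.Agent.Helper44.CR

/-- For all `k > 0` prime to `M`, the number `N k` is modulo `ℓ` the sum of a nonzero polynomial
of degree `≤ n` in `p ^ k` and of a linear combination of powers `γ ^ k`, where each `γ` lies in
an algebraic closure of `𝔽_ℓ` and `γ ^ (M * ord_ℓ p) ≠ 1`. -/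
def ZetaType (ℓ p n : ℕ) [Fact ℓ.Prime] (N : ℕ → ℕ) : Prop :=
  ∃ (M r : ℕ) (P : Polynomial (ZMod ℓ)) (c γ : Fin r → AlgebraicClosure (ZMod ℓ)),
    0 < M ∧ P ≠ 0 ∧ P.natDegree ≤ n ∧ (∀ i, γ i ^ (M * orderOf (p : ZMod ℓ)) ≠ 1) ∧
    ∀ k : ℕ, 0 < k → k.Coprime M → (N k : AlgebraicClosure (ZMod ℓ)) =
      algebraMap (ZMod ℓ) _ (P.eval ((p : ZMod ℓ) ^ k)) + ∑ i, c i * γ i ^ k

theorem totient_le_of_zeta_aux (ℓ p n : ℕ) [Fact ℓ.Prime] (hp0 : (p : ZMod ℓ) ≠ 0) (N : ℕ → ℕ)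
    (hN : ∀ k : ℕ, 0 < k → k.Coprime (orderOf (p : ZMod ℓ)) → ℓ ∣ N k)
    {F : Type} [Field F] [Algebra (ZMod ℓ) F] (M r : ℕ) (P : Polynomial (ZMod ℓ))
    (c γ : Fin r → F) (hM : 0 < M) (hP : P ≠ 0) (hdeg : P.natDegree ≤ n)
    (hγ : ∀ i, γ i ^ (M * orderOf (p : ZMod ℓ)) ≠ 1)
    (hcount : ∀ k : ℕ, 0 < k → k.Coprime M → (N k : F) =
      algebraMap (ZMod ℓ) _ (P.eval ((p : ZMod ℓ) ^ k)) + ∑ i, c i * γ i ^ k) :
    Nat.totient (orderOf (p : ZMod ℓ)) ≤ n := by
  refine (totient_le_natDegree ℓ (p : ZMod ℓ) hp0 M hM P hP ?_).trans hdeg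
  intro k hk0 hkM hkd
  set d := orderOf (p : ZMod ℓ) with hd
  set a : F := algebraMap (ZMod ℓ) F (P.eval ((p : ZMod ℓ) ^ k)) with ha
  -- the identity along the progression `k + M d t`
  have hprog : ∀ t : ℕ, a + ∑ i, c i * γ i ^ k * (γ i ^ (M * d)) ^ t = 0 := by
    intro t
    have h1 : (k + M * d * t).Coprime M := by
      rw [mul_assoc]
      exact (Nat.coprime_add_mul_left_left _ _ _).2 hkM
    have h2 : (k + M * d * t).Coprime d := by
      rw [mul_comm M d, mul_assoc]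
      exact (Nat.coprime_add_mul_left_left _ _ _).2 hkd
    have h3 := hcount (k + M * d * t) (by omega) h1
    have h4 : ((N (k + M * d * t) : ℕ) : F) = 0 := by
      have h5 : ((N (k + M * d * t) : ℕ) : ZMod ℓ) = 0 :=
        (ZMod.natCast_eq_zero_iff _ _).2 (hN _ (by omega) h2)
      have h6 := congrArg (algebraMap (ZMod ℓ) F) h5
      rwa [map_natCast, map_zero] at h6
    rw [h4] at h3
    have h5 : (p : ZMod ℓ) ^ (k + M * d * t) = (p : ZMod ℓ) ^ k := by
      have : (p : ZMod ℓ) ^ (M * d * t) = 1 := by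
        rw [mul_comm M d, mul_assoc, pow_mul, hd, pow_orderOf_eq_one, one_pow]
      rw [pow_add, this, mul_one]
    rw [h5] at h3
    rw [ha, h3]
    congr 1
    refine Finset.sum_congr rfl (fun i _ => ?_)
    rw [pow_add, pow_mul (γ i) (M * d) t, mul_assoc]
  -- hence the identity for all polynomials
  have hpoly : ∀ Q : Polynomial F, a * Q.eval 1 +
      ∑ i, c i * γ i ^ k * Q.eval (γ i ^ (M * d)) = 0 := by
    intro Q
    induction Q using Polynomial.induction_on' with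
    | add Q₁ Q₂ h₁ h₂ =>
      have e : a * (Q₁ + Q₂).eval 1 + ∑ i, c i * γ i ^ k * (Q₁ + Q₂).eval (γ i ^ (M * d)) =
          (a * Q₁.eval 1 + ∑ i, c i * γ i ^ k * Q₁.eval (γ i ^ (M * d))) +
          (a * Q₂.eval 1 + ∑ i, c i * γ i ^ k * Q₂.eval (γ i ^ (M * d))) := by
        simp only [Polynomial.eval_add, mul_add, Finset.sum_add_distrib]
        ring
      rw [e, h₁, h₂, add_zero]
    | monomial t b =>
      have e : a * (Polynomial.monomial t b).eval 1 +
          ∑ i, c i * γ i ^ k * (Polynomial.monomial t b).eval (γ i ^ (M * d)) =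
          b * (a + ∑ i, c i * γ i ^ k * (γ i ^ (M * d)) ^ t) := by
        rw [mul_add, Finset.mul_sum]
        congr 1
        · simp only [Polynomial.eval_monomial, one_pow, mul_one]
          ring
        · refine Finset.sum_congr rfl (fun i _ => ?_)
          rw [Polynomial.eval_monomial]
          ring
      rw [e, hprog t, mul_zero]
  have h1 := hpoly (∏ i, (Polynomial.X - Polynomial.C (γ i ^ (M * d))))
  have h2 : ∀ i, (∏ j, (Polynomial.X - Polynomial.C (γ j ^ (M * d)))).eval (γ i ^ (M * d)) = 0 := by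
    intro i
    rw [Polynomial.eval_prod]
    refine Finset.prod_eq_zero (Finset.mem_univ i) ?_
    simp
  simp only [h2, mul_zero, Finset.sum_const_zero, add_zero] at h1
  have h3 : (∏ i, (Polynomial.X - Polynomial.C (γ i ^ (M * d)))).eval (1 : F) ≠ 0 := by
    rw [Polynomial.eval_prod, Finset.prod_ne_zero_iff]
    intro i _
    simp only [Polynomial.eval_sub, Polynomial.eval_X, Polynomial.eval_C]
    exact sub_ne_zero.2 (hγ i).symm
  have h4 : a = 0 := (mul_eq_zero.1 h1).resolve_right h3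
  rw [ha, map_eq_zero_iff _ (algebraMap (ZMod ℓ) F).injective] at h4
  exact h4

theorem totient_le_of_zetaType (ℓ p n : ℕ) [Fact ℓ.Prime] (hp0 : (p : ZMod ℓ) ≠ 0) (N : ℕ → ℕ)
    (hN : ∀ k : ℕ, 0 < k → k.Coprime (orderOf (p : ZMod ℓ)) → ℓ ∣ N k)
    (h : ZetaType ℓ p n N) : Nat.totient (orderOf (p : ZMod ℓ)) ≤ n := by
  obtain ⟨M, r, P, c, γ, hM, hP, hdeg, hγ, hcount⟩ := h
  exact totient_le_of_zeta_aux ℓ p n hp0 N hN M r P c γ hM hP hdeg hγ hcount

/-- **The main theorem.** -/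
theorem totient_le_of_smooth_zeta {K : Type} [Field K] (σ : RingAut K) (ℓ : ℕ) [Fact ℓ.Prime]
    (hσ : orderOf σ = ℓ) (X : Scheme.{0}) [IsIntegral X] [X.IsSeparated]
    (f : X ⟶ Spec (CommRingCat.of ℤ)) (n : ℕ) [SmoothOfRelativeDimension n f]
    (e : X.functionField ≃+* K) (τ : X ⟶ X)
    (hτ : Spec.map (CommRingCat.ofHom (σ : K →+* K)) ≫ genericMor X e = genericMor X e ≫ τ)
    (p : ℕ) [Fact p.Prime]
    (hcount : ZetaType ℓ p n (fun k => Nat.card (Spec (CommRingCat.of (GaloisField p k)) ⟶ X))) :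
    Nat.totient (orderOf (p : ZMod ℓ)) ≤ n := by
  rcases Nat.lt_or_ge n (orderOf (p : ZMod ℓ)) with hn | hn
  · have hp0 : (p : ZMod ℓ) ≠ 0 := by
      intro hp0
      rw [hp0, orderOf_eq_zero_iff'.2] at hn
      · omega
      · intro m hm h
        rw [zero_pow hm.ne'] at h
        exact zero_ne_one h
    exact totient_le_of_zetaType ℓ p n hp0 _
      (fun k hk0 hk => dvd_count_of_smooth σ ℓ Fact.out hσ X f n e τ hτ p hn k hk0 hk) hcount
  · exact (Nat.totient_le _).trans hn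

end Pool.Agent.Helper44.CR
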